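import Pool.Agent.U587.BX.Bad

set_option autoImplicit false

/-!
Boxes, nice data, all times.
-/

namespace Pool.Agent.U587.BX

open MeasureTheory Filter Finset
open Pool.Agent.Y957.MC (IsFlow flowInv smo box bavg)
open Pool.Agent.R497.TD (NiceG)
open Pool.Agent.R497.TB
open Pool.Agent.R261.TB (Concl niceWb_scale)
open Pool.Agent.R235.TD (flow_scale niceG_scale)
open Pool.Agent.U587.DX (poly_bound dm dm_mono)
open scoped ENNReal NNReal Topology

universe u

variable {X : Type u} [MeasurableSpace X] {μ : Measure X} [IsProbabilityMeasure μ] {k d : ℕ}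
  {σ : ℝ → X → X} {g : X → ℝ} {p : Fin k → Polynomial ℝ}

/-- the dimension bound for nice data, `a` in `[1, 2]` -/
theorem bad_nice {B : (Fin k → ℕ) → ℝ → X → ℂ} (hk : 0 < k) (hσ : IsFlow μ σ)
    (hg : NiceG σ g) (hp : SD p d) (hBn : NiceWb d B) :
    dimH {a : ℝ | a ∈ Set.Icc (1 : ℝ) 2 ∧ ¬ Concl μ σ g p B a} ≤ dm d := by
  obtain ⟨hgm, C1, hg1, hgl, hgp⟩ := hg
  obtain ⟨hBm, C2, hB2, hBl⟩ := hBn
  obtain ⟨C, hC⟩ : ∃ C : ℝ, C = max (max C1 C2) 1 := ⟨_, rfl⟩
  have hC1 : C1 ≤ C := hC ▸ (le_max_left _ _).trans (le_max_left _ _)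
  have hC2 : C2 ≤ C := hC ▸ (le_max_right _ _).trans (le_max_left _ _)
  have hC0 : 0 < C := lt_of_lt_of_le one_pos (hC ▸ le_max_right _ _)
  have hdiv : ∀ z : ℝ, |z| ≤ C → |z / C| ≤ 1 := fun z hz => by
    rw [abs_div, abs_of_pos hC0, div_le_one hC0]; exact hz
  have hgl' : ∀ u v x, |g (σ u x) / C - g (σ v x) / C| ≤ 1 * |u - v| := fun u v x => by
    rw [← sub_div, abs_div, abs_of_pos hC0, div_le_iff₀ hC0, one_mul, mul_comm]
    refine (hgl u v x).trans ?_
    gcongr
  have hreal : ∀ B' : (Fin k → ℕ) → ℝ → X → ℝ, (∀ m, Measurable fun q : ℝ × X => B' m q.1 q.2) →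
      (∀ m a x, |B' m a x| ≤ C) →
      (∀ m, (∀ l, 1 ≤ m l) → ∀ a a' x, |B' m a x - B' m a' x| ≤
        C * ((Finset.univ.sup m : ℕ) : ℝ) ^ (d - 1) * |a - a'|) →
      dimH {a : ℝ | a ∈ Set.Icc (1 : ℝ) 2 ∧ ¬ ∀ᵐ x ∂μ,
      Tendsto (fun M => ravg M fun m => B' m a x * g (σ (a * sep p m) x)) atTop (𝓝 0)} ≤ dm d := by
    intro B' hm hb hl
    have h1 := bad_real (μ := μ) hk hσ (g := fun x => g x / C) ⟨hgm.div_const C, 1, fun x => hdiv _ ((hg1 x).trans hC1),
        hgl', fun u v x => by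
          rw [intervalIntegral.integral_div]
          exact hdiv _ ((hgp u v x).trans hC1)⟩ (fun x => hdiv _ ((hg1 x).trans hC1)) hgl'
      hp (B := fun n a x => B' n a x / C) (fun n => (hm n).div_const C) (fun n a x => hdiv _ (hb n a x))
      (fun n hn a a' x => by
        rw [← sub_div, abs_div, abs_of_pos hC0, div_le_iff₀ hC0]
        refine (hl n hn a a' x).trans (le_of_eq ?_)
        ring)
    refine (dimH_mono ?_).trans h1
    rintro a ⟨ha1, ha2⟩
    refine ⟨ha1, fun ha => ha2 ?_⟩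
    filter_upwards [ha] with x hx
    have h2 := hx.const_mul (C * C)
    rw [mul_zero] at h2
    refine h2.congr fun M => ?_
    unfold ravg
    rw [← mul_assoc, mul_comm (C * C), mul_assoc, mul_sum]
    congr 1
    refine sum_congr rfl fun n _ => ?_
    field_simp
  have hre := hreal (fun n a x => (B n a x).re) (fun n => Complex.measurable_re.comp (hBm n))
    (fun n a x => (Complex.abs_re_le_norm _).trans ((hB2 n a x).trans hC2))
    (fun n hn a a' x => by
      rw [← Complex.sub_re]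
      refine (Complex.abs_re_le_norm _).trans ((hBl n hn a a' x).trans ?_)
      gcongr)
  have him := hreal (fun n a x => (B n a x).im) (fun n => Complex.measurable_im.comp (hBm n))
    (fun n a x => (Complex.abs_im_le_norm _).trans ((hB2 n a x).trans hC2))
    (fun n hn a a' x => by
      rw [← Complex.sub_im]
      refine (Complex.abs_im_le_norm _).trans ((hBl n hn a a' x).trans ?_)
      gcongr)
  refine (dimH_mono (t := {a : ℝ | a ∈ Set.Icc (1 : ℝ) 2 ∧ ¬ ∀ᵐ x ∂μ,
      Tendsto (fun M => ravg M fun m => (B m a x).re * g (σ (a * sep p m) x)) atTop (𝓝 0)} ∪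
      {a : ℝ | a ∈ Set.Icc (1 : ℝ) 2 ∧ ¬ ∀ᵐ x ∂μ,
      Tendsto (fun M => ravg M fun m => (B m a x).im * g (σ (a * sep p m) x)) atTop (𝓝 0)}) ?_).trans ?_
  · rintro a ⟨ha1, ha2⟩
    by_contra hne
    rw [Set.mem_union, not_or] at hne
    simp only [Set.mem_ofPred_eq, not_and, not_not] at hne
    apply ha2
    unfold Concl
    filter_upwards [hne.1 ha1, hne.2 ha1] with x hx1 hx2
    have h3 : Tendsto (fun M => ((ravg M (fun m => (B m a x).re * g (σ (a * sep p m) x)) : ℝ) : ℂ))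
        atTop (nhds ((0 : ℝ) : ℂ)) := (Complex.continuous_ofReal.tendsto 0).comp hx1
    have h4 : Tendsto (fun M => ((ravg M (fun m => (B m a x).im * g (σ (a * sep p m) x)) : ℝ) : ℂ))
        atTop (nhds ((0 : ℝ) : ℂ)) := (Complex.continuous_ofReal.tendsto 0).comp hx2
    have h5 := h3.add (h4.mul_const Complex.I)
    rw [Complex.ofReal_zero, zero_mul, add_zero] at h5
    refine h5.congr fun M => ?_
    unfold ravg bavg
    push_cast
    rw [mul_assoc, ← mul_add, sum_mul, ← sum_add_distrib]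
    congr 1
    refine sum_congr rfl fun n _ => ?_
    conv_rhs => rw [← Complex.re_add_im (B n a x)]
    ring
  · rw [dimH_union]
    exact max_le hre him

/-- all times -/
theorem bad_all {B : (Fin k → ℕ) → ℝ → X → ℂ} (hk : 0 < k) (hσ : IsFlow μ σ)
    (hg : NiceG σ g) (hp : SD p d) (hB : NiceWb d B) :
    dimH {a : ℝ | ¬ Concl μ σ g p B a} ≤ dm d := by
  have key : ∀ A : ℝ, A ≠ 0 → dimH {a : ℝ | A⁻¹ * a ∈ Set.Icc (1 : ℝ) 2 ∧ ¬ Concl μ σ g p B a} ≤ dm d := by
    intro A hA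
    have h1 := bad_nice (μ := μ) (σ := fun t => σ (A * t)) (B := fun n a x => B n (A * a) x) hk (flow_scale hσ A)
      (niceG_scale hg hA) hp (niceWb_scale hB A)
    have hlip : LipschitzWith (Real.toNNReal |A|) fun b : ℝ => A * b := by
      apply LipschitzWith.of_dist_le_mul
      intro b c
      rw [Real.dist_eq, Real.dist_eq, ← mul_sub, abs_mul, Real.coe_toNNReal _ (abs_nonneg _)]
    refine le_trans (dimH_mono ?_) ((hlip.dimH_image_le _).trans h1)
    rintro a ⟨ha1, ha2⟩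
    refine ⟨A⁻¹ * a, ⟨ha1, fun h2 => ha2 ?_⟩, by simp only; rw [mul_inv_cancel_left₀ hA]⟩
    unfold Concl at h2 ⊢
    filter_upwards [h2] with x hx
    have e : ∀ m : Fin k → ℕ, A * (A⁻¹ * a * sep p m) = a * sep p m := fun m => by
      field_simp
    have e2 : A * (A⁻¹ * a) = a := mul_inv_cancel_left₀ hA a
    simpa only [e, e2] using hx
  have hsub : {a : ℝ | ¬ Concl μ σ g p B a} ⊆ {0} ∪ ⋃ i : ℤ,
      ({a : ℝ | ((2 : ℝ) ^ i)⁻¹ * a ∈ Set.Icc (1 : ℝ) 2 ∧ ¬ Concl μ σ g p B a} ∪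
       {a : ℝ | (-(2 : ℝ) ^ i)⁻¹ * a ∈ Set.Icc (1 : ℝ) 2 ∧ ¬ Concl μ σ g p B a}) := by
    intro a ha
    rcases eq_or_ne a 0 with ha0 | ha0
    · left; exact ha0
    right
    rw [Set.mem_iUnion]
    obtain ⟨i, hi⟩ := exists_mem_Ico_zpow (abs_pos.2 ha0) (one_lt_two : (1 : ℝ) < 2)
    have hp : (0 : ℝ) < 2 ^ i := by positivity
    have hi2 : |a| < 2 * 2 ^ i := by
      have := hi.2
      rw [zpow_add_one₀ (by norm_num)] at this
      linarith
    have hmem : ((2 : ℝ) ^ i)⁻¹ * |a| ∈ Set.Icc (1 : ℝ) 2 := by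
      constructor
      · rw [inv_mul_eq_div, le_div_iff₀ hp, one_mul]
        exact hi.1
      · rw [inv_mul_eq_div, div_le_iff₀ hp]
        exact hi2.le
    refine ⟨i, ?_⟩
    rcases lt_or_gt_of_ne ha0 with hneg | hpos
    · right
      refine ⟨?_, ha⟩
      rw [abs_of_neg hneg] at hmem
      rw [inv_neg, neg_mul_comm]
      exact hmem
    · left
      refine ⟨?_, ha⟩
      rw [abs_of_pos hpos] at hmem
      exact hmem
  refine (dimH_mono hsub).trans ?_
  rw [dimH_union, dimH_singleton, dimH_iUnion]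
  refine max_le (zero_le) (iSup_le fun i => ?_)
  rw [dimH_union]
  have h2 : (2 : ℝ) ^ i ≠ 0 := by positivity
  exact max_le (key _ h2) (key _ (neg_ne_zero.2 h2))

end Pool.Agent.U587.BX
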