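import Pool.Agent.U587.BX.Core

set_option autoImplicit false

/-!
Boxes, nice data: the exceptional times have Hausdorff dimension at most `1 - 1 / (8 d)`.
-/

namespace Pool.Agent.U587.BX

open MeasureTheory Filter Finset
open Pool.Agent.Y957.MC (IsFlow flowInv smo box bavg)
open Pool.Agent.R497.TD (NiceG)
open Pool.Agent.R497.TB
open Pool.Agent.R261.TB (Concl niceWb_scale)
open Pool.Agent.R235.TD (flow_scale niceG_scale)
open Pool.Agent.U587.DX (poly_bound dm dm_mono)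
open scoped ENNReal NNReal Topology

universe u

section one

variable {X : Type u} [MeasurableSpace X] {μ : Measure X} [IsProbabilityMeasure μ] {k : ℕ}
  {σ : ℝ → X → X} {g : X → ℝ} {p : Fin k → Polynomial ℝ}

lemma gbx_pow (q Q : ℕ) (u : Fin k → ℕ) : gbx Q (fun l => (u l + 1) ^ q - 1) = gbx (q * Q) u := by
  funext l
  unfold gbx
  have : (u l + 1) ^ q - 1 + 1 = (u l + 1) ^ q := Nat.sub_add_cancel (Nat.one_le_iff_ne_zero.2 (by positivity))
  simp only [this]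
  rw [pow_mul]

/-- the mean square bound -/
lemma Ph_int {B : (Fin k → ℕ) → ℝ → X → ℝ} (hσ : IsFlow μ σ) (hg : NiceG σ g) (hg1 : ∀ x, |g x| ≤ 1) {d : ℕ}
    (hp : SD p d) (hBm : ∀ m, Measurable fun q : ℝ × X => B m q.1 q.2) (hB1 : ∀ m a x, |B m a x| ≤ 1)
    (hBl : ∀ m, (∀ l, 1 ≤ m l) → ∀ a a' x, |B m a x - B m a' x| ≤
      1 * ((Finset.univ.sup m : ℕ) : ℝ) ^ (d - 1) * |a - a'|) (i : Fin k) (j : ℕ) {q : ℕ} (hq : 1 ≤ q)
    (hkq : k ≤ (k + 1) * q) :
    ∃ C : ℝ, 0 ≤ C ∧ ∀ᶠ T : ℕ in atTop, ∫ a in (1 : ℝ)..2, Ph μ (q * (8 * (k + 1))) σ g p B i j T a ≤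
      C / ((T : ℝ) + 1) ^ ((k + 1) * q - k) := by
  obtain ⟨C', T₀, hT⟩ := bjcore' (X := X) (μ := μ) t_ENUM
    (Pool.Agent.R258.TDJBD.t_JBD Pool.Agent.R724.TD.t_PTW)
    (Pool.Agent.R712.TB.t_BD Pool.Agent.R711.TDOSC.t_OSC (Pool.Agent.R711.TDDBD.t_DBD Pool.Agent.R746.t_KAP)
      Pool.Agent.R497.TD.PINC784.t_PINC Pool.Agent.R718.TB.t_BBAD)
    hσ hg hg1 i hp.1 (hp.2 i) hBm hB1 hBl j
  refine ⟨max C' 0, le_max_right _ _, ?_⟩
  filter_upwards [eventually_ge_atTop T₀] with T hTT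
  obtain ⟨C, hC, hP⟩ := sep_bound p (d := d) (fun l => (hp.2 l).le)
  have hgm := hg.1
  have hi : ∀ t a, Integrable (fun x => (D (q * (8 * (k + 1))) σ g p B i j t a x) ^ 2) μ := fun t a => by
    refine Integrable.of_bound ((D_meas' (p := p) hσ hgm hBm i j t a).pow_const 2).aestronglyMeasurable 1
      (ae_of_all _ fun x => ?_)
    rw [Real.norm_eq_abs, abs_pow]
    exact pow_le_one₀ (abs_nonneg _) (D_bd hg1 hB1 _ _ _ _ _)
  have hcont : ∀ t ∈ SS i T, IntervalIntegrable (fun a => ∫ x, (D (q * (8 * (k + 1))) σ g p B i j t a x) ^ 2 ∂μ)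
      volume 1 2 := by
    intro t ht
    have hmeas : Measurable fun a => ∫ x, (D (q * (8 * (k + 1))) σ g p B i j t a x) ^ 2 ∂μ := by
      have h1 : StronglyMeasurable fun q' : ℝ × X => (D (q * (8 * (k + 1))) σ g p B i j t q'.1 q'.2) ^ 2 :=
        ((D_meas (p := p) hσ hgm hBm i j t).pow_const 2).stronglyMeasurable
      exact (h1.integral_prod_right (ν := μ)).measurable
    rw [intervalIntegrable_iff_integrableOn_Ioc_of_le (by norm_num)]
    refine Integrable.of_bound hmeas.aestronglyMeasurable 1 (ae_of_all _ fun a => ?_)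
    rw [Real.norm_eq_abs, abs_of_nonneg (integral_nonneg fun x => sq_nonneg _)]
    have h2 : ∫ x, (D (q * (8 * (k + 1))) σ g p B i j t a x) ^ 2 ∂μ ≤ ∫ _x, (1 : ℝ) ∂μ := by
      refine integral_mono (hi t a) (integrable_const _) fun x => ?_
      have := D_bd (Q := q * (8 * (k + 1))) (σ := σ) (p := p) hg1 hB1 i j t a x
      rw [← sq_abs]
      exact pow_le_one₀ (abs_nonneg _) this
    simpa using h2
  unfold Ph
  rw [intervalIntegral.integral_finsetSum hcont]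
  have hterm : ∀ t ∈ SS i T, ∫ a in (1 : ℝ)..2, ∫ x, (D (q * (8 * (k + 1))) σ g p B i j t a x) ^ 2 ∂μ ≤
      max C' 0 / ((T : ℝ) + 1) ^ ((k + 1) * q) := by
    intro t ht
    rw [mem_SS] at ht
    have h1 := hT (fun l => (t l + 1) ^ q - 1) (by
        have h2 : t i + 1 ≤ (t i + 1) ^ q := Nat.le_self_pow (by omega) _
        have h3 := ht.1
        omega) (fun l => by
        have h2 : (t l + 1) ^ q ≤ (t i + 1) ^ q := Nat.pow_le_pow_left (by rw [ht.1]; have := ht.2 l; omega) _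
        omega)
    rw [gbx_pow] at h1
    refine h1.trans ?_
    have h4 : (((t i + 1) ^ q - 1 : ℕ) : ℝ) + 1 = ((T : ℝ) + 1) ^ q := by
      rw [ht.1]
      have h5 : 1 ≤ (T + 1) ^ q := Nat.one_le_iff_ne_zero.2 (by positivity)
      rw [Nat.cast_sub h5]
      push_cast
      ring
    rw [h4, ← pow_mul, mul_comm q]
    gcongr
    exact le_max_left _ _
  refine (sum_le_sum hterm).trans ?_
  rw [sum_const, nsmul_eq_mul]
  have h3 := card_SS i T
  have h4 : (0 : ℝ) ≤ max C' 0 / ((T : ℝ) + 1) ^ ((k + 1) * q) := div_nonneg (le_max_right _ _) (by positivity)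
  calc ((SS i T).card : ℝ) * (max C' 0 / ((T : ℝ) + 1) ^ ((k + 1) * q)) ≤
        ((T : ℝ) + 1) ^ k * (max C' 0 / ((T : ℝ) + 1) ^ ((k + 1) * q)) := by gcongr
    _ = max C' 0 / ((T : ℝ) + 1) ^ ((k + 1) * q - k) := by
        have h5 : ((T : ℝ) + 1) ^ ((k + 1) * q) = ((T : ℝ) + 1) ^ k * ((T : ℝ) + 1) ^ ((k + 1) * q - k) := by
          rw [← pow_add]
          congr 1
          omega
        rw [h5]
        have h6 : (0 : ℝ) < ((T : ℝ) + 1) ^ k := by positivity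
        field_simp

/-- the dimension bound for normalized real data -/
theorem bad_real {B : (Fin k → ℕ) → ℝ → X → ℝ} (hk : 0 < k) (hσ : IsFlow μ σ) (hg : NiceG σ g) (hg1 : ∀ x, |g x| ≤ 1)
    (hgl : ∀ u v x, |g (σ u x) - g (σ v x)| ≤ 1 * |u - v|) {d : ℕ}
    (hp : SD p d) (hBm : ∀ m, Measurable fun q : ℝ × X => B m q.1 q.2) (hB1 : ∀ m a x, |B m a x| ≤ 1)
    (hBl : ∀ m, (∀ l, 1 ≤ m l) → ∀ a a' x, |B m a x - B m a' x| ≤
      1 * ((Finset.univ.sup m : ℕ) : ℝ) ^ (d - 1) * |a - a'|) :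
    dimH {a : ℝ | a ∈ Set.Icc (1 : ℝ) 2 ∧ ¬ ∀ᵐ x ∂μ,
      Tendsto (fun M => ravg M fun m => B m a x * g (σ (a * sep p m) x)) atTop (𝓝 0)} ≤ dm d := by
  have hd := hp.1
  have hkd : 8 * (k + 1) * d = 8 * ((k + 1) * d) := by ring
  have hlt : k + 1 < 8 * (k + 1) * d := by
    rw [hkd]
    have h1 : k + 1 ≤ (k + 1) * d := Nat.le_mul_of_pos_right _ hd
    omega
  have key := dimH_of_all (p := k + 1) (w := 8 * (k + 1) * d) (c := k) (by omega) hlt
    (E := {a : ℝ | a ∈ Set.Icc (1 : ℝ) 2 ∧ ¬ ∀ᵐ x ∂μ,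
      Tendsto (fun M => ravg M fun m => B m a x * g (σ (a * sep p m) x)) atTop (𝓝 0)}) (by
    intro q s hq hs hcq hexp
    have hsub : {a : ℝ | a ∈ Set.Icc (1 : ℝ) 2 ∧ ¬ ∀ᵐ x ∂μ,
        Tendsto (fun M => ravg M fun m => B m a x * g (σ (a * sep p m) x)) atTop (𝓝 0)} ⊆
        ⋃ r : Fin k × ℕ, {a : ℝ | a ∈ Set.Icc (1 : ℝ) 2 ∧
          ∃ᶠ l : ℕ in atTop, 1 / ((l : ℝ) + 1) ^ 2 < Ph μ (q * (8 * (k + 1))) σ g p B r.1 r.2 l a} := by
      intro a ha
      obtain ⟨ha1, ha2⟩ := ha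
      by_contra hne
      apply ha2
      refine conv_at hσ hg.1 hBm hg1 hB1 (Q := q * (8 * (k + 1))) hk (by positivity) fun i j => ?_
      by_contra hj
      apply hne
      rw [Set.mem_iUnion]
      refine ⟨(i, j), ha1, fun hev => hj ?_⟩
      filter_upwards [hev] with l hl
      exact not_lt.1 hl
    refine (dimH_mono hsub).trans ?_
    rw [dimH_iUnion]
    refine iSup_le fun r => ?_
    obtain ⟨C, hC, hint⟩ := Ph_int (μ := μ) hσ hg hg1 hp hBm hB1 hBl r.1 r.2 hq hcq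
    obtain ⟨C2, hC2, hP⟩ := sep_bound p (d := d) (fun l => (hp.2 l).le)
    have h0 := hnull_power hs hexp (E := {a : ℝ | a ∈ Set.Icc (1 : ℝ) 2 ∧
          ∃ᶠ l : ℕ in atTop, 1 / ((l : ℝ) + 1) ^ 2 < Ph μ (q * (8 * (k + 1))) σ g p B r.1 r.2 l a})
      (Φ := fun l a => Ph μ (q * (8 * (k + 1))) σ g p B r.1 r.2 l a) (Λ := 2 * (1 + C2)) (C := C) (by positivity) hC
      (fun l a => sum_nonneg fun t _ => integral_nonneg fun x => sq_nonneg _)
      (fun l a _ b _ => by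
        have h1 := Ph_lip (Q := q * (8 * (k + 1))) (p := p) (d := d) hσ hg.1 hBm hg1 hgl hB1 hBl hC2 hP r.1 r.2 l a b
        refine h1.trans (le_of_eq ?_)
        have e : q * (8 * (k + 1)) * d + k = 8 * (k + 1) * d * q + k := by ring
        rw [e])
      hint (fun a ha => ha)
    have h10 : dimH {a : ℝ | a ∈ Set.Icc (1 : ℝ) 2 ∧
          ∃ᶠ l : ℕ in atTop, 1 / ((l : ℝ) + 1) ^ 2 < Ph μ (q * (8 * (k + 1))) σ g p B r.1 r.2 l a} ≤
          ((Real.toNNReal s : ℝ≥0) : ℝ≥0∞) := by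
      refine dimH_le_of_hausdorffMeasure_ne_top ?_
      rw [Real.coe_toNNReal s hs.le, h0]
      exact ENNReal.zero_ne_top
    exact h10)
  refine key.trans (le_of_eq ?_)
  unfold dm
  congr 2
  push_cast
  have hd0 : (0 : ℝ) < d := by exact_mod_cast hd
  field_simp
  norm_num

end one

end Pool.Agent.U587.BX
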