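import Pool.Agent.U587.BX.Dim2
import Pool.Agent.U587.DX.Core
import Pool.Agent.R497.TB.Core
import Pool.Agent.R497.TB.Enum
import Pool.Agent.R136.TBBGR
import Pool.Agent.R712.TBBD
import Pool.Agent.R718.TBBBAD
import Pool.Agent.R261.TBBCORER

set_option autoImplicit false

/-!
Boxes, nice data: the exceptional times have Hausdorff dimension at most `1 - 1 / (8 d)`.
-/

namespace Pool.Agent.U587.BX

open MeasureTheory Filter Finset
open Pool.Agent.Y957.MC (IsFlow flowInv smo box bavg)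
open Pool.Agent.R497.TD (NiceG)
open Pool.Agent.R497.TB
open Pool.Agent.R261.TB (Concl niceWb_scale)
open Pool.Agent.R235.TD (flow_scale niceG_scale)
open Pool.Agent.U587.DX (poly_bound dm dm_mono)
open scoped ENNReal NNReal Topology

universe u

lemma sep_bound {k : ℕ} (p : Fin k → Polynomial ℝ) {d : ℕ} (hp : ∀ l, (p l).natDegree ≤ d) :
    ∃ C : ℝ, 0 ≤ C ∧ ∀ (m : Fin k → ℕ) (M : ℕ), (∀ l, 1 ≤ m l ∧ m l ≤ M) → |sep p m| ≤ C * (M : ℝ) ^ d := by
  choose c hc0 hc using fun l => poly_bound (p l)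
  refine ⟨∑ l, c l, sum_nonneg fun l _ => hc0 l, fun m M hm => ?_⟩
  unfold sep
  refine (abs_sum_le_sum_abs _ _).trans ?_
  rw [sum_mul]
  refine sum_le_sum fun l _ => ?_
  obtain ⟨n, hn⟩ : ∃ n, m l = n + 1 := ⟨m l - 1, by have := (hm l).1; omega⟩
  have h1 := hc l n
  rw [hn]
  push_cast
  refine h1.trans ?_
  refine mul_le_mul_of_nonneg_left ?_ (hc0 l)
  have h2 : ((n : ℝ) + 1) ≤ M := by
    have := (hm l).2
    rw [hn] at this
    exact_mod_cast this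
  have h3 : (1 : ℝ) ≤ (n : ℝ) + 1 := by
    have : (0 : ℝ) ≤ (n : ℝ) := Nat.cast_nonneg _
    linarith
  calc ((n : ℝ) + 1) ^ (p l).natDegree ≤ ((n : ℝ) + 1) ^ d := pow_le_pow_right₀ h3 (hp l)
    _ ≤ (M : ℝ) ^ d := pow_le_pow_left₀ (by positivity) h2 _

lemma ravg_sub_abs {k : ℕ} (M : Fin k → ℕ) {h h' : (Fin k → ℕ) → ℝ} {K : ℝ} (hK : 0 ≤ K)
    (hh : ∀ m ∈ box M, |h m - h' m| ≤ K) : |ravg M h - ravg M h'| ≤ K := by
  unfold ravg
  rw [← mul_sub, ← sum_sub_distrib]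
  rcases Nat.eq_zero_or_pos (∏ i, M i) with h0 | h0
  · rw [h0]; simpa using hK
  · have hN : (0 : ℝ) < ((∏ i, M i : ℕ) : ℝ) := by exact_mod_cast h0
    rw [abs_mul, abs_of_pos (by positivity : (0 : ℝ) < 1 / ((∏ i, M i : ℕ) : ℝ)), one_div, inv_mul_le_iff₀ hN]
    refine (abs_sum_le_sum_abs _ _).trans ?_
    calc _ ≤ ∑ m ∈ box M, K := sum_le_sum hh
      _ = _ := by
        rw [sum_const, nsmul_eq_mul]
        unfold Pool.Agent.Y957.MC.box
        rw [Fintype.card_piFinset]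
        simp

/-- the indices of the grid boxes whose longest side is the side `i`, with index `T` -/
def SS {k : ℕ} (i : Fin k) (T : ℕ) : Finset (Fin k → ℕ) :=
  (Fintype.piFinset fun _ : Fin k => range (T + 1)).filter fun t => t i = T

lemma mem_SS {k : ℕ} {i : Fin k} {T : ℕ} {t : Fin k → ℕ} : t ∈ SS i T ↔ t i = T ∧ ∀ l, t l ≤ T := by
  unfold SS
  rw [mem_filter, Fintype.mem_piFinset]
  simp only [mem_range]
  constructor
  · rintro ⟨h1, h2⟩
    exact ⟨h2, fun l => by have := h1 l; omega⟩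
  · rintro ⟨h1, h2⟩
    exact ⟨fun l => by have := h2 l; omega, h1⟩

lemma card_SS {k : ℕ} (i : Fin k) (T : ℕ) : ((SS i T).card : ℝ) ≤ ((T : ℝ) + 1) ^ k := by
  have h1 : (SS i T).card ≤ (T + 1) ^ k := by
    unfold SS
    refine (card_filter_le _ _).trans ?_
    rw [Fintype.card_piFinset]
    simp
  exact_mod_cast h1

section one

variable {X : Type u} [MeasurableSpace X] {μ : Measure X} {k : ℕ}

/-- the truncated average over a grid box -/
noncomputable def D (Q : ℕ) (σ : ℝ → X → X) (g : X → ℝ) (p : Fin k → Polynomial ℝ) (B : (Fin k → ℕ) → ℝ → X → ℝ)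
    (i : Fin k) (j : ℕ) (t : Fin k → ℕ) (a : ℝ) (x : X) : ℝ :=
  ravg (gbx Q t) fun m => if cut j (gbx Q t i) < m i then B m a x * g (σ (a * sep p m) x) else 0

/-- the sum of the mean squares -/
noncomputable def Ph (μ : Measure X) (Q : ℕ) (σ : ℝ → X → X) (g : X → ℝ) (p : Fin k → Polynomial ℝ)
    (B : (Fin k → ℕ) → ℝ → X → ℝ) (i : Fin k) (j T : ℕ) (a : ℝ) : ℝ :=
  ∑ t ∈ SS i T, ∫ x, (D Q σ g p B i j t a x) ^ 2 ∂μ

variable {σ : ℝ → X → X} {g : X → ℝ} {p : Fin k → Polynomial ℝ} {B : (Fin k → ℕ) → ℝ → X → ℝ} {Q : ℕ}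

omit [MeasurableSpace X] in
lemma D_bd (hg1 : ∀ x, |g x| ≤ 1) (hB1 : ∀ m a x, |B m a x| ≤ 1) (i : Fin k) (j : ℕ) (t : Fin k → ℕ) (a : ℝ)
    (x : X) : |D Q σ g p B i j t a x| ≤ 1 := by
  refine ravg_abs_le _ fun m => ?_
  split_ifs
  · rw [abs_mul]
    exact mul_le_one₀ (hB1 _ _ _) (abs_nonneg _) (hg1 _)
  · simp

lemma D_meas (hσ : IsFlow μ σ) (hgm : Measurable g) (hBm : ∀ m, Measurable fun q : ℝ × X => B m q.1 q.2)
    (i : Fin k) (j : ℕ) (t : Fin k → ℕ) : Measurable fun q : ℝ × X => D Q σ g p B i j t q.1 q.2 := by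
  unfold D ravg
  refine measurable_const.mul (Finset.measurable_sum _ fun m _ => ?_)
  beta_reduce
  split_ifs
  · exact (hBm m).mul (hgm.comp (hσ.meas.comp ((measurable_fst.mul_const _).prodMk measurable_snd)))
  · exact measurable_const

lemma D_meas' (hσ : IsFlow μ σ) (hgm : Measurable g) (hBm : ∀ m, Measurable fun q : ℝ × X => B m q.1 q.2)
    (i : Fin k) (j : ℕ) (t : Fin k → ℕ) (a : ℝ) : Measurable fun x => D Q σ g p B i j t a x :=
  (D_meas (Q := Q) (p := p) hσ hgm hBm i j t).comp (measurable_const.prodMk measurable_id)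

omit [MeasurableSpace X] in
lemma D_lip {d : ℕ} (hg1 : ∀ x, |g x| ≤ 1) (hgl : ∀ u v x, |g (σ u x) - g (σ v x)| ≤ 1 * |u - v|)
    (hB1 : ∀ m a x, |B m a x| ≤ 1)
    (hBl : ∀ m, (∀ l, 1 ≤ m l) → ∀ a a' x, |B m a x - B m a' x| ≤
      1 * ((Finset.univ.sup m : ℕ) : ℝ) ^ (d - 1) * |a - a'|)
    {C : ℝ} (hC : 0 ≤ C) (hP : ∀ (m : Fin k → ℕ) (M : ℕ), (∀ l, 1 ≤ m l ∧ m l ≤ M) → |sep p m| ≤ C * (M : ℝ) ^ d)
    (i : Fin k) (j T : ℕ) {t : Fin k → ℕ} (ht : ∀ l, t l ≤ T) (a b : ℝ) (x : X) :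
    |D Q σ g p B i j t a x - D Q σ g p B i j t b x| ≤ (1 + C) * (((T : ℝ) + 1) ^ (Q * d)) * |a - b| := by
  unfold D
  refine ravg_sub_abs _ (by positivity) fun m hm => ?_
  have hm1 : ∀ l, 1 ≤ m l ∧ m l ≤ (T + 1) ^ Q := by
    intro l
    unfold Pool.Agent.Y957.MC.box at hm
    have h1 := mem_Icc.1 (Fintype.mem_piFinset.1 hm l)
    refine ⟨h1.1, h1.2.trans ?_⟩
    unfold gbx
    exact Nat.pow_le_pow_left (by have := ht l; omega) _
  have hM1 : (1 : ℝ) ≤ (((T + 1) ^ Q : ℕ) : ℝ) := by exact_mod_cast Nat.one_le_iff_ne_zero.2 (by positivity)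
  have hMd : (((T + 1) ^ Q : ℕ) : ℝ) ^ d = ((T : ℝ) + 1) ^ (Q * d) := by
    push_cast
    rw [pow_mul]
  split_ifs with hc
  · have e1 : B m a x * g (σ (a * sep p m) x) - B m b x * g (σ (b * sep p m) x) =
        (B m a x - B m b x) * g (σ (a * sep p m) x) + B m b x * (g (σ (a * sep p m) x) - g (σ (b * sep p m) x)) := by
      ring
    rw [e1]
    refine (abs_add_le _ _).trans ?_
    rw [abs_mul, abs_mul]
    have h1 : |B m a x - B m b x| * |g (σ (a * sep p m) x)| ≤ ((T : ℝ) + 1) ^ (Q * d) * |a - b| := by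
      refine (mul_le_of_le_one_right (abs_nonneg _) (hg1 _)).trans ?_
      refine (hBl m (fun l => (hm1 l).1) a b x).trans ?_
      rw [one_mul, ← hMd]
      have h2 : ((Finset.univ.sup m : ℕ) : ℝ) ≤ (((T + 1) ^ Q : ℕ) : ℝ) := by
        have : Finset.univ.sup m ≤ (T + 1) ^ Q := Finset.sup_le fun l _ => (hm1 l).2
        exact_mod_cast this
      refine mul_le_mul_of_nonneg_right ?_ (abs_nonneg _)
      exact (pow_le_pow_left₀ (Nat.cast_nonneg _) h2 _).trans (pow_le_pow_right₀ hM1 (Nat.sub_le _ _))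
    have h2 : |B m b x| * |g (σ (a * sep p m) x) - g (σ (b * sep p m) x)| ≤ C * ((T : ℝ) + 1) ^ (Q * d) * |a - b| := by
      refine (mul_le_of_le_one_left (abs_nonneg _) (hB1 _ _ _)).trans ?_
      refine (hgl _ _ _).trans ?_
      rw [one_mul, ← sub_mul, abs_mul, mul_comm, ← hMd]
      exact mul_le_mul_of_nonneg_right (hP m _ hm1) (abs_nonneg _)
    calc _ ≤ ((T : ℝ) + 1) ^ (Q * d) * |a - b| + C * ((T : ℝ) + 1) ^ (Q * d) * |a - b| := add_le_add h1 h2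
      _ = _ := by ring
  · rw [sub_zero, abs_zero]
    positivity

lemma Ph_lip [IsProbabilityMeasure μ] {d : ℕ} (hσ : IsFlow μ σ) (hgm : Measurable g)
    (hBm : ∀ m, Measurable fun q : ℝ × X => B m q.1 q.2) (hg1 : ∀ x, |g x| ≤ 1)
    (hgl : ∀ u v x, |g (σ u x) - g (σ v x)| ≤ 1 * |u - v|) (hB1 : ∀ m a x, |B m a x| ≤ 1)
    (hBl : ∀ m, (∀ l, 1 ≤ m l) → ∀ a a' x, |B m a x - B m a' x| ≤
      1 * ((Finset.univ.sup m : ℕ) : ℝ) ^ (d - 1) * |a - a'|)
    {C : ℝ} (hC : 0 ≤ C) (hP : ∀ (m : Fin k → ℕ) (M : ℕ), (∀ l, 1 ≤ m l ∧ m l ≤ M) → |sep p m| ≤ C * (M : ℝ) ^ d)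
    (i : Fin k) (j T : ℕ) (a b : ℝ) :
    |Ph μ Q σ g p B i j T a - Ph μ Q σ g p B i j T b| ≤ (2 * (1 + C)) * (((T : ℝ) + 1) ^ (Q * d + k)) * |a - b| := by
  have hi : ∀ t a, Integrable (fun x => (D Q σ g p B i j t a x) ^ 2) μ := fun t a => by
    refine Integrable.of_bound ((D_meas' (Q := Q) (p := p) hσ hgm hBm i j t a).pow_const 2).aestronglyMeasurable 1
      (ae_of_all _ fun x => ?_)
    rw [Real.norm_eq_abs, abs_pow]
    exact pow_le_one₀ (abs_nonneg _) (D_bd hg1 hB1 _ _ _ _ _)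
  unfold Ph
  rw [← sum_sub_distrib]
  refine (abs_sum_le_sum_abs _ _).trans ?_
  have hterm : ∀ t ∈ SS i T, |∫ x, (D Q σ g p B i j t a x) ^ 2 ∂μ - ∫ x, (D Q σ g p B i j t b x) ^ 2 ∂μ| ≤
      (2 * (1 + C)) * (((T : ℝ) + 1) ^ (Q * d)) * |a - b| := by
    intro t ht
    rw [mem_SS] at ht
    rw [← integral_sub (hi t a) (hi t b)]
    have h1 : ∀ x, |(D Q σ g p B i j t a x) ^ 2 - (D Q σ g p B i j t b x) ^ 2| ≤
        (2 * (1 + C)) * (((T : ℝ) + 1) ^ (Q * d)) * |a - b| := by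
      intro x
      rw [sq_sub_sq, abs_mul]
      have h2 := D_lip (Q := Q) (σ := σ) (p := p) hg1 hgl hB1 hBl hC hP i j T ht.2 a b x
      have h3 : |D Q σ g p B i j t a x + D Q σ g p B i j t b x| ≤ 2 := by
        refine (abs_add_le _ _).trans ?_
        linarith [D_bd (Q := Q) (σ := σ) (p := p) hg1 hB1 i j t a x, D_bd (Q := Q) (σ := σ) (p := p) hg1 hB1 i j t b x]
      calc _ ≤ 2 * ((1 + C) * (((T : ℝ) + 1) ^ (Q * d)) * |a - b|) :=
            mul_le_mul h3 h2 (abs_nonneg _) (by norm_num)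
        _ = _ := by ring
    have h2 : ‖∫ x, ((D Q σ g p B i j t a x) ^ 2 - (D Q σ g p B i j t b x) ^ 2) ∂μ‖ ≤
        ((2 * (1 + C)) * (((T : ℝ) + 1) ^ (Q * d)) * |a - b|) * μ.real Set.univ :=
      norm_integral_le_of_norm_le_const (ae_of_all _ fun x => by rw [Real.norm_eq_abs]; exact h1 x)
    rw [Real.norm_eq_abs] at h2
    simpa using h2
  refine (sum_le_sum hterm).trans ?_
  rw [sum_const, nsmul_eq_mul]
  have h3 := card_SS i T
  have h4 : 0 ≤ (2 * (1 + C)) * (((T : ℝ) + 1) ^ (Q * d)) * |a - b| := by positivity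
  calc _ ≤ ((T : ℝ) + 1) ^ k * ((2 * (1 + C)) * (((T : ℝ) + 1) ^ (Q * d)) * |a - b|) := by gcongr
    _ = _ := by rw [pow_add]; ring

/-- convergence at one time -/
lemma conv_at [IsProbabilityMeasure μ] (hσ : IsFlow μ σ) (hgm : Measurable g)
    (hBm : ∀ m, Measurable fun q : ℝ × X => B m q.1 q.2) (hg1 : ∀ x, |g x| ≤ 1)
    (hB1 : ∀ m a x, |B m a x| ≤ 1) {a : ℝ} (hk : 0 < k) (hQ : 0 < Q)
    (h : ∀ (i : Fin k) (j : ℕ), ∀ᶠ T : ℕ in atTop, Ph μ Q σ g p B i j T a ≤ 1 / ((T : ℝ) + 1) ^ 2) :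
    ∀ᵐ x ∂μ, Tendsto (fun M => ravg M fun m => B m a x * g (σ (a * sep p m) x)) atTop (𝓝 0) := by
  have hi : ∀ i j t, Integrable (fun x => (D Q σ g p B i j t a x) ^ 2) μ := fun i j t => by
    refine Integrable.of_bound ((D_meas' (Q := Q) (p := p) hσ hgm hBm i j t a).pow_const 2).aestronglyMeasurable 1
      (ae_of_all _ fun x => ?_)
    rw [Real.norm_eq_abs, abs_pow]
    exact pow_le_one₀ (abs_nonneg _) (D_bd hg1 hB1 _ _ _ _ _)
  have hall : ∀ (i : Fin k) (j : ℕ), ∀ᵐ x ∂μ, ∀ η : ℝ, 0 < η → ∃ T₁ : ℕ, ∀ t : Fin k → ℕ, T₁ ≤ t i →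
      (∀ l, t l ≤ t i) → |D Q σ g p B i j t a x| ≤ η := by
    intro i j
    obtain ⟨l0, hl0⟩ := eventually_atTop.1 (h i j)
    have hs : Summable fun l : ℕ => 1 / (((l + l0 : ℕ) : ℝ) + 1) ^ 2 := by
      have h2 := (summable_nat_add_iff (l0 + 1)).2 ((Real.summable_one_div_nat_pow (p := 2)).2 (by norm_num))
      refine h2.congr fun l => ?_
      push_cast
      ring
    have h3 := Pool.Agent.Y86.MC.ae_summable_of μ (fun l x => ∑ t ∈ SS i (l + l0), (D Q σ g p B i j t a x) ^ 2)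
      (fun l => Finset.measurable_sum _ fun t _ => (D_meas' (Q := Q) (p := p) hσ hgm hBm i j t a).pow_const 2)
      (fun l x => sum_nonneg fun t _ => sq_nonneg _) _ hs
      (fun l => integrable_finsetSum _ fun t _ => hi i j t) (fun l => by
        rw [integral_finsetSum _ fun t _ => hi i j t]
        exact hl0 (l + l0) (by omega))
    filter_upwards [h3] with x hx η hη
    have h4 := hx.tendsto_atTop_zero
    have h5 : ∀ᶠ l : ℕ in atTop, ∑ t ∈ SS i (l + l0), (D Q σ g p B i j t a x) ^ 2 < η ^ 2 :=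
      h4.eventually (gt_mem_nhds (by positivity))
    obtain ⟨l1, hl1⟩ := eventually_atTop.1 h5
    refine ⟨l1 + l0, fun t ht1 ht2 => ?_⟩
    have h6 := hl1 (t i - l0) (by omega)
    rw [Nat.sub_add_cancel (by omega)] at h6
    have h7 : (D Q σ g p B i j t a x) ^ 2 ≤ ∑ t ∈ SS i (t i), (D Q σ g p B i j t a x) ^ 2 :=
      single_le_sum (f := fun t => (D Q σ g p B i j t a x) ^ 2) (fun t _ => sq_nonneg _) (mem_SS.2 ⟨rfl, ht2⟩)
    have h8 : (D Q σ g p B i j t a x) ^ 2 ≤ η ^ 2 := h7.trans h6.le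
    exact abs_le_of_sq_le_sq h8 hη.le
  have h2 := ae_all_iff.2 fun i => ae_all_iff.2 fun j => hall i j
  filter_upwards [h2] with x hx
  exact Pool.Agent.R136.TB.t_BGR k Q (fun m => B m a x * g (σ (a * sep p m) x)) hk hQ
    (fun m => by
      rw [abs_mul]
      exact mul_le_one₀ (hB1 _ _ _) (abs_nonneg _) (hg1 _)) (fun i j η hη => hx i j η hη)

end one

end Pool.Agent.U587.BX
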