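import Pool.Agent.U587.DX.Dim

set_option autoImplicit false

/-!
Sets of small Hausdorff measure from one mean square bound.
-/

namespace Pool.Agent.U587.BX

open Filter Set MeasureTheory Finset
open Pool.Agent.U587.DX (hnull_limsup grid_point count)
open scoped ENNReal NNReal Topology

/-- saving `P`, loss `W` -/
theorem hnull_power {W P : ℕ} {s : ℝ} (hs : 0 < s) (hexp : ((W : ℝ) + 2) * (1 - s) + 2 - P ≤ -2) {E : Set ℝ}
    {Φ : ℕ → ℝ → ℝ} {Λ C : ℝ} (hΛ : 0 ≤ Λ) (hC : 0 ≤ C) (hΦ0 : ∀ l a, 0 ≤ Φ l a)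
    (hlip : ∀ l, ∀ a ∈ Set.Icc (1 : ℝ) 2, ∀ b ∈ Set.Icc (1 : ℝ) 2,
        |Φ l a - Φ l b| ≤ Λ * ((l : ℝ) + 1) ^ W * |a - b|)
    (hint : ∀ᶠ l : ℕ in atTop, ∫ a in (1 : ℝ)..2, Φ l a ≤ C / ((l : ℝ) + 1) ^ P)
    (hE : ∀ a ∈ E, a ∈ Set.Icc (1 : ℝ) 2 ∧ ∃ᶠ l : ℕ in atTop, 1 / ((l : ℝ) + 1) ^ 2 < Φ l a) :
    μH[s] E = 0 := by
  obtain ⟨K, hK⟩ : ∃ K : ℕ → ℕ, ∀ l, K l = ⌈2 * Λ + 1⌉₊ * (l + 1) ^ (W + 2) := ⟨_, fun l => rfl⟩
  have hM1 : 1 ≤ ⌈2 * Λ + 1⌉₊ := by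
    rw [Nat.one_le_ceil_iff]
    linarith
  have hM2 : 2 * Λ + 1 ≤ (⌈2 * Λ + 1⌉₊ : ℝ) := Nat.le_ceil _
  have hK1 : ∀ l, 1 ≤ K l := fun l => by
    rw [hK]
    exact Nat.one_le_iff_ne_zero.2 (Nat.mul_ne_zero (by omega) (by positivity))
  have hev : ∀ᶠ l : ℕ in atTop, ∃ I : Finset ℕ, (I.card : ℝ) ≤ 2 * (C / ((l : ℝ) + 1) ^ P) * K l /
      (1 / ((l : ℝ) + 1) ^ 2) ∧ ∀ a ∈ Set.Icc (1 : ℝ) 2, 1 / ((l : ℝ) + 1) ^ 2 < Φ l a →
        ∃ i ∈ I, a ∈ Set.Icc (1 + i * (1 / (K l : ℝ))) (1 + i * (1 / (K l : ℝ)) + 1 / K l) := by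
    filter_upwards [hint] with l hl
    have hl0 : (0 : ℝ) < (l : ℝ) + 1 := by positivity
    refine count (hΦ0 l) (Λ := Λ * ((l : ℝ) + 1) ^ W) (by positivity) (hlip l) (by positivity) hl (hK1 l) ?_
    rw [hK]
    push_cast
    rw [div_le_iff₀ (by positivity), pow_add]
    have h2 : (0 : ℝ) < ((l : ℝ) + 1) ^ W := by positivity
    calc 2 * (Λ * ((l : ℝ) + 1) ^ W) = (2 * Λ) * ((l : ℝ) + 1) ^ W := by ring
      _ ≤ (⌈2 * Λ + 1⌉₊ : ℝ) * ((l : ℝ) + 1) ^ W := by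
          gcongr
          linarith
      _ = (⌈2 * Λ + 1⌉₊ : ℝ) * (((l : ℝ) + 1) ^ W * ((l : ℝ) + 1) ^ 2) * (1 / ((l : ℝ) + 1) ^ 2) := by
          field_simp
  obtain ⟨l0, hl0⟩ := eventually_atTop.1 hev
  classical
  obtain ⟨I, hI⟩ : ∃ I : ℕ → Finset ℕ, ∀ l, l0 ≤ l →
      ((I l).card : ℝ) ≤ 2 * (C / ((l : ℝ) + 1) ^ P) * K l / (1 / ((l : ℝ) + 1) ^ 2) ∧
      ∀ a ∈ Set.Icc (1 : ℝ) 2, 1 / ((l : ℝ) + 1) ^ 2 < Φ l a →
        ∃ i ∈ I l, a ∈ Set.Icc (1 + i * (1 / (K l : ℝ))) (1 + i * (1 / (K l : ℝ)) + 1 / K l) := by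
    refine ⟨fun l => if hl : l0 ≤ l then (hl0 l hl).choose else ∅, fun l hl => ?_⟩
    beta_reduce
    rw [dif_pos hl]
    exact (hl0 l hl).choose_spec
  obtain ⟨M, hM⟩ : ∃ M : ℝ, M = (⌈2 * Λ + 1⌉₊ : ℝ) := ⟨_, rfl⟩
  have hM0 : 0 < M := by
    rw [hM]
    exact_mod_cast hM1
  have hKr : ∀ l, (K l : ℝ) = M * ((l : ℝ) + 1) ^ (W + 2) := by
    intro l
    rw [hK, hM]
    push_cast
    rfl
  have hKpos : ∀ l, (0 : ℝ) < K l := fun l => by exact_mod_cast hK1 l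
  have hra : Antitone fun l : ℕ => 1 / (K l : ℝ) := by
    intro l l' hll
    have : (l : ℝ) ≤ l' := by exact_mod_cast hll
    simp only [hKr]
    gcongr
  have hrt : Tendsto (fun l : ℕ => 1 / (K l : ℝ)) atTop (𝓝 0) := by
    refine squeeze_zero (fun l => by positivity) (fun l => ?_) (tendsto_one_div_add_atTop_nhds_zero_nat (𝕜 := ℝ))
    have hKl : ((l : ℝ) + 1) ≤ K l := by
      have h1 : l + 1 ≤ K l := by
        rw [hK]
        calc l + 1 = 1 * (l + 1) ^ 1 := by ring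
          _ ≤ ⌈2 * Λ + 1⌉₊ * (l + 1) ^ (W + 2) :=
            Nat.mul_le_mul hM1 (Nat.pow_le_pow_right (by omega) (by omega))
      exact_mod_cast h1
    exact one_div_le_one_div_of_le (by positivity) hKl
  have hsum : Summable fun l => ((I l).card : ℝ) * (1 / (K l : ℝ)) ^ s := by
    have h1 : Summable fun l : ℕ => (2 * C * M ^ (1 - s)) * (((l + 1 : ℕ) : ℝ) ^ (-(2 : ℝ))) := by
      apply Summable.mul_left
      exact (summable_nat_add_iff 1).2 (Real.summable_nat_rpow.2 (by norm_num))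
    refine Summable.of_norm_bounded_eventually_nat h1 ?_
    filter_upwards [eventually_ge_atTop l0] with l hl
    have hl1 : (0 : ℝ) < (l : ℝ) + 1 := by positivity
    have hl2 : (1 : ℝ) ≤ (l : ℝ) + 1 := by
      have : (0 : ℝ) ≤ (l : ℝ) := Nat.cast_nonneg _
      linarith
    have hKp := hKpos l
    rw [Real.norm_of_nonneg (by positivity)]
    have h2 := (hI l hl).1
    have h3 : ((I l).card : ℝ) * (1 / (K l : ℝ)) ^ s ≤
        (2 * (C / ((l : ℝ) + 1) ^ P) * K l / (1 / ((l : ℝ) + 1) ^ 2)) * (1 / (K l : ℝ)) ^ s := by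
      gcongr
    refine h3.trans ?_
    have h4 : (K l : ℝ) * (1 / (K l : ℝ)) ^ s = (K l : ℝ) ^ (1 - s) := by
      rw [one_div, Real.inv_rpow hKp.le, ← Real.rpow_neg hKp.le]
      nth_rw 1 [← Real.rpow_one (K l : ℝ)]
      rw [← Real.rpow_add hKp]
      congr 1
    have h5 : (2 * (C / ((l : ℝ) + 1) ^ P) * K l / (1 / ((l : ℝ) + 1) ^ 2)) * (1 / (K l : ℝ)) ^ s =
        2 * C * ((K l : ℝ) * (1 / (K l : ℝ)) ^ s) * (((l : ℝ) + 1) ^ 2 / ((l : ℝ) + 1) ^ P) := by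
      field_simp
    rw [h5, h4, hKr, Real.mul_rpow hM0.le (by positivity), ← Real.rpow_natCast ((l : ℝ) + 1) (W + 2),
      ← Real.rpow_mul hl1.le, ← Real.rpow_natCast ((l : ℝ) + 1) 2, ← Real.rpow_natCast ((l : ℝ) + 1) P,
      ← Real.rpow_sub hl1]
    have h6 : 2 * C * (M ^ (1 - s) * ((l : ℝ) + 1) ^ (((W + 2 : ℕ) : ℝ) * (1 - s))) *
        ((l : ℝ) + 1) ^ (((2 : ℕ) : ℝ) - (P : ℝ)) = (2 * C * M ^ (1 - s)) *
        (((l : ℝ) + 1) ^ (((W + 2 : ℕ) : ℝ) * (1 - s)) *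
          ((l : ℝ) + 1) ^ (((2 : ℕ) : ℝ) - (P : ℝ))) := by ring
    rw [h6, ← Real.rpow_add hl1]
    push_cast
    gcongr
    linarith
  have key := hnull_limsup hs I (fun l i => 1 + i * (1 / (K l : ℝ))) (fun l => 1 / (K l : ℝ))
    (fun l => by positivity) hra hrt hsum
  have hsub : E ⊆ {a : ℝ | ∃ᶠ j in atTop, ∃ i ∈ I j, a ∈ Set.Icc (1 + i * (1 / (K j : ℝ)))
      (1 + i * (1 / (K j : ℝ)) + 1 / (K j : ℝ))} := by
    intro a ha
    obtain ⟨ha1, ha2⟩ := hE a ha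
    refine (ha2.and_eventually (eventually_ge_atTop l0)).mono fun l hl => ?_
    exact (hI l hl.2).2 a ha1 hl.1
  exact le_antisymm ((measure_mono hsub).trans key.le) (zero_le)

/-- a bound for the dimension from bounds for all large `q` -/
theorem dimH_of_all {p w c : ℕ} (hw : 0 < w) (hpw : p < w) {E : Set ℝ}
    (h : ∀ (q : ℕ) (s : ℝ), 1 ≤ q → 0 < s → c ≤ p * q → (((w * q + c : ℕ) : ℝ) + 2) * (1 - s) + 2 - ((p * q - c : ℕ) : ℝ) ≤ -2 →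
      dimH E ≤ ENNReal.ofReal s) :
    dimH E ≤ ENNReal.ofReal (1 - (p : ℝ) / w) := by
  have hw0 : (0 : ℝ) < w := by exact_mod_cast hw
  have hpw0 : (p : ℝ) < w := by exact_mod_cast hpw
  have hs0 : 0 < 1 - (p : ℝ) / w := by
    rw [sub_pos, div_lt_one hw0]
    exact hpw0
  rcases Nat.eq_zero_or_pos p with hp0 | hp0
  · have h1 := Real.dimH_univ
    refine (dimH_mono (Set.subset_univ E)).trans ?_
    rw [h1, hp0]
    simp
  refine le_of_forall_gt_imp_ge_of_dense fun t ht => ?_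
  obtain ⟨s, hs1, hs2⟩ := ENNReal.lt_iff_exists_nnreal_btwn.1 ht
  refine le_trans ?_ hs2.le
  have hs1' : 1 - (p : ℝ) / w < s := by
    rw [← ENNReal.ofReal_coe_nnreal, ENNReal.ofReal_lt_ofReal_iff_of_nonneg hs0.le] at hs1
    exact hs1
  have hsp : (0 : ℝ) < s := hs0.trans hs1'
  obtain ⟨η, hη⟩ : ∃ η : ℝ, η = (s : ℝ) - (1 - (p : ℝ) / w) := ⟨_, rfl⟩
  have hη0 : 0 < η := by rw [hη]; linarith
  have hp1 : (1 : ℝ) ≤ p := by exact_mod_cast hp0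
  obtain ⟨q, hq⟩ := exists_nat_gt (max (c : ℝ) ((4 + c + (c + 2) * (p : ℝ) / w) / (η * w)))
  have hq0 : (0 : ℝ) < q := lt_of_le_of_lt ((Nat.cast_nonneg c).trans (le_max_left _ _)) hq
  have hq1 : 1 ≤ q := by exact_mod_cast hq0
  have hqc : c ≤ q := by
    have : (c : ℝ) < q := lt_of_le_of_lt (le_max_left _ _) hq
    exact_mod_cast this.le
  have hcp : c ≤ p * q := hqc.trans (Nat.le_mul_of_pos_left q hp0)
  have key := h q s hq1 hsp hcp (by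
    rw [Nat.cast_sub hcp]
    push_cast
    have h7 : (1 - (s : ℝ)) = (p : ℝ) / w - η := by rw [hη]; ring
    rw [h7]
    have h8 : 4 + c + (c + 2) * (p : ℝ) / w < η * w * q := by
      have := lt_of_le_of_lt (le_max_right _ _) hq
      rw [div_lt_iff₀ (by positivity)] at this
      linarith
    have h9 : ((w : ℝ) * q + c + 2) * ((p : ℝ) / w - η) = p * q + (c + 2) * p / w - η * w * q - (c + 2) * η := by
      field_simp
      ring
    rw [h9]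
    have h10 : 0 ≤ ((c : ℝ) + 2) * η := by positivity
    linarith)
  rwa [ENNReal.ofReal_coe_nnreal] at key

end Pool.Agent.U587.BX
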