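import Pool.Agent.U587.BX.All
import Pool.Agent.U587.DX.Gen
import Pool.Agent.R780.TBBTOP
import Pool.Agent.R725.TBBPROD
import Pool.Agent.R744.TBBFG
import Pool.Agent.R497.TB.Main

set_option autoImplicit false

/-!
Boxes: approximation in `L¹` at a fixed time at which the box averages of single functions converge.
-/

namespace Pool.Agent.U587.BX

open MeasureTheory Filter Finset
open Pool.Agent.Y957.MC (IsFlow flowInv smo box bavg)
open Pool.Agent.R497.TD (NiceG)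
open Pool.Agent.R497.TB
open Pool.Agent.R780.TB (norm_bavg_le bavg_add bavg_mul)
open Pool.Agent.U587.ET (exists_small prod_diff_c norm_prod_le_one)
open scoped ENNReal NNReal Topology

universe u

lemma rmono {k : ℕ} (M : Fin k → ℕ) {h h' : (Fin k → ℕ) → ℝ} (hh : ∀ m, h m ≤ h' m) : ravg M h ≤ ravg M h' :=
  Pool.Agent.R780.TB.ravg_mono M hh

lemma rsum {k : ℕ} (M : Fin k → ℕ) {ι : Type*} (s : Finset ι) (h : ι → (Fin k → ℕ) → ℝ) :
    ravg M (fun m => ∑ j ∈ s, h j m) = ∑ j ∈ s, ravg M (h j) := by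
  unfold ravg
  rw [sum_comm, mul_sum]

lemma card_box {k : ℕ} (M : Fin k → ℕ) : ((box M).card : ℝ) = ((∏ i, M i : ℕ) : ℝ) := by
  unfold Pool.Agent.Y957.MC.box
  rw [Fintype.card_piFinset]
  simp

lemma rconst_le {k : ℕ} (M : Fin k → ℕ) {C : ℝ} (hC : 0 ≤ C) : ravg M (fun _ => C) ≤ C := by
  unfold ravg
  rw [sum_const, nsmul_eq_mul, card_box]
  rcases Nat.eq_zero_or_pos (∏ i, M i) with h0 | h0
  · rw [h0]; simpa using hC
  · have hN : (0 : ℝ) < ((∏ i, M i : ℕ) : ℝ) := by exact_mod_cast h0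
    refine le_of_eq ?_
    field_simp

lemma rconst {k : ℕ} {M : Fin k → ℕ} (hM : ∀ l, 1 ≤ M l) (C : ℝ) : ravg M (fun _ => C) = C := by
  unfold ravg
  rw [sum_const, nsmul_eq_mul, card_box]
  have hN : (0 : ℝ) < ((∏ i, M i : ℕ) : ℝ) := by
    exact_mod_cast Finset.prod_pos fun i _ => hM i
  field_simp

lemma rnonneg {k : ℕ} (M : Fin k → ℕ) {h : (Fin k → ℕ) → ℝ} (hh : ∀ m, 0 ≤ h m) : 0 ≤ ravg M h := by
  unfold ravg
  exact mul_nonneg (by positivity) (sum_nonneg fun m _ => hh m)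

lemma bnorm {k : ℕ} (M : Fin k → ℕ) {h : (Fin k → ℕ) → ℂ} {C : ℝ} (hC : 0 ≤ C) (hh : ∀ m, ‖h m‖ ≤ C) :
    ‖bavg M h‖ ≤ C :=
  (norm_bavg_le M h).trans ((rmono M hh).trans (rconst_le M hC))

variable {X : Type u} [mX : MeasurableSpace X] {μ : Measure X} {k : ℕ}

/-- the averages of single bounded functions over the boxes converge almost everywhere -/
def Sg (μ : Measure X) (τ : ℝ → X → X) (p : Fin k → Polynomial ℝ) (a : ℝ) : Prop :=
  ∀ h : X → ℝ, Measurable h → (∃ C : ℝ, ∀ x, |h x| ≤ C) → ∀ᵐ x ∂μ, ∃ L : ℝ,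
    Tendsto (fun M : Fin k → ℕ => ravg M fun m => h (τ (a * sep p m) x)) atTop (𝓝 L)

lemma ravg_meas {h : (Fin k → ℕ) → X → ℝ} (hh : ∀ m, Measurable (h m)) (M : Fin k → ℕ) :
    Measurable fun x => ravg M fun m => h m x := by
  unfold ravg
  exact measurable_const.mul (Finset.measurable_sum _ fun m _ => hh m)

lemma bavg_meas {h : (Fin k → ℕ) → X → ℂ} (hh : ∀ m, Measurable (h m)) (M : Fin k → ℕ) :
    Measurable fun x => bavg M fun m => h m x := by
  unfold bavg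
  exact measurable_const.mul (Finset.measurable_sum _ fun m _ => hh m)

lemma ravg_int {h : (Fin k → ℕ) → X → ℝ} (hh : ∀ m, Integrable (h m) μ) (M : Fin k → ℕ) :
    Integrable (fun x => ravg M fun m => h m x) μ := by
  unfold ravg
  exact (integrable_finsetSum _ fun m _ => hh m).const_mul _

lemma ravg_integral {h : (Fin k → ℕ) → X → ℝ} (hh : ∀ m, Integrable (h m) μ) (M : Fin k → ℕ) :
    ∫ x, (ravg M fun m => h m x) ∂μ = ravg M fun m => ∫ x, h m x ∂μ := by
  unfold ravg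
  rw [integral_const_mul, integral_finsetSum _ fun m _ => hh m]

/-- the integral of the limit -/
lemma lim_int [IsProbabilityMeasure μ] {τ : ℝ → X → X} {p : Fin k → Polynomial ℝ} {a : ℝ} (hτ : IsFlow μ τ)
    (hS : Sg μ τ p a) {h : X → ℝ} (hm : Measurable h) {C : ℝ} (hb : ∀ x, 0 ≤ h x ∧ h x ≤ C) :
    ∃ H : X → ℝ, Integrable H μ ∧ 0 ≤ᵐ[μ] H ∧ ∫ x, H x ∂μ = ∫ x, h x ∂μ ∧ ∀ᵐ x ∂μ,
      Tendsto (fun M : Fin k → ℕ => ravg M fun m => h (τ (a * sep p m) x)) atTop (𝓝 (H x)) := by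
  classical
  have habs : ∀ x, |h x| ≤ C := fun x => by rw [abs_of_nonneg (hb x).1]; exact (hb x).2
  have h1 := hS h hm ⟨C, habs⟩
  obtain ⟨A, hA⟩ : ∃ A : (Fin k → ℕ) → X → ℝ, A = fun M x => ravg M fun m => h (τ (a * sep p m) x) := ⟨_, rfl⟩
  have hhm : ∀ m : Fin k → ℕ, Measurable fun x => h (τ (a * sep p m) x) := fun m => hm.comp (hτ.mp _).measurable
  have hhi : ∀ m : Fin k → ℕ, Integrable (fun x => h (τ (a * sep p m) x)) μ := fun m => by
    refine Integrable.of_bound (C := C) (hhm m).aestronglyMeasurable (ae_of_all _ fun x => ?_)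
    rw [Real.norm_eq_abs]
    exact habs _
  have hAm : ∀ M, Measurable (A M) := fun M => by
    rw [hA]
    exact ravg_meas hhm M
  have hAb : ∀ M x, 0 ≤ A M x ∧ A M x ≤ C := by
    intro M x
    have hC0 : 0 ≤ C := (hb x).1.trans (hb x).2
    rw [hA]
    exact ⟨rnonneg M fun m => (hb _).1, (rmono M fun m => (hb _).2).trans (rconst_le M hC0)⟩
  obtain ⟨H, hH⟩ : ∃ H : X → ℝ, H = fun x => if hx : ∃ L : ℝ, Tendsto (fun M => A M x) atTop (𝓝 L) then hx.choose else 0 :=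
    ⟨_, rfl⟩
  have hlim : ∀ᵐ x ∂μ, Tendsto (fun M => A M x) atTop (𝓝 (H x)) := by
    filter_upwards [h1] with x hx
    have hx' : ∃ L : ℝ, Tendsto (fun M => A M x) atTop (𝓝 L) := by rw [hA]; exact hx
    rw [hH]
    simp only
    rw [dif_pos hx']
    exact hx'.choose_spec
  have hHm : AEStronglyMeasurable H μ :=
    (aemeasurable_of_tendsto_metrizable_ae atTop (fun M => (hAm M).aemeasurable) hlim).aestronglyMeasurable
  have hHb : ∀ᵐ x ∂μ, 0 ≤ H x ∧ H x ≤ C := by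
    filter_upwards [hlim] with x hx
    exact ⟨ge_of_tendsto' hx fun M => (hAb M x).1, le_of_tendsto' hx fun M => (hAb M x).2⟩
  refine ⟨H, Integrable.of_bound hHm C ?_, ?_, ?_, ?_⟩
  · filter_upwards [hHb] with x hx
    rw [Real.norm_of_nonneg hx.1]
    exact hx.2
  · filter_upwards [hHb] with x hx using hx.1
  · have h2 : Tendsto (fun M => ∫ x, A M x ∂μ) atTop (𝓝 (∫ x, H x ∂μ)) := by
      refine tendsto_integral_filter_of_dominated_convergence (fun _ => C)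
        (Eventually.of_forall fun M => (hAm M).aestronglyMeasurable)
        (Eventually.of_forall fun M => ae_of_all _ fun x => ?_) (integrable_const _) hlim
      rw [Real.norm_of_nonneg (hAb M x).1]
      exact (hAb M x).2
    have h3 : ∀ᶠ M : Fin k → ℕ in atTop, ∫ x, A M x ∂μ = ∫ x, h x ∂μ := by
      filter_upwards [eventually_ge_atTop (fun _ : Fin k => 1)] with M hM
      rw [hA]
      simp only
      rw [ravg_integral hhi]
      have h4 : (fun m : Fin k → ℕ => ∫ x, h (τ (a * sep p m) x) ∂μ) = fun _ => ∫ x, h x ∂μ := by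
        funext m
        have h5 := hτ.mp (a * sep p m)
        rw [← integral_map h5.measurable.aemeasurable (by rw [h5.map_eq]; exact hm.aestronglyMeasurable), h5.map_eq]
      rw [h4]
      exact rconst (fun l => hM l) _
    exact tendsto_nhds_unique h2 ((tendsto_congr' h3).2 tendsto_const_nhds)
  · filter_upwards [hlim] with x hx
    rw [hA] at hx
    exact hx

section transfer

variable [IsProbabilityMeasure μ] {r : ℕ} {τ : Fin r → ℝ → X → X} {p : Fin r → Fin k → Polynomial ℝ} {a : ℝ}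

omit mX in
lemma avg_split (s : Finset (Fin r)) (W : (Fin k → ℕ) → X → ℂ)
    (hW : ∀ m x, ‖W m x‖ ≤ 1) (f g : Fin r → X → ℂ) (hf1 : ∀ j x, ‖f j x‖ ≤ 1) (hg1 : ∀ j x, ‖g j x‖ ≤ 1)
    (M : Fin k → ℕ) (x : X) :
    ‖bavg M fun m => W m x * ∏ j ∈ s, f j (τ j (a * sep (p j) m) x)‖ ≤
      ‖bavg M fun m => W m x * ∏ j ∈ s, g j (τ j (a * sep (p j) m) x)‖ +
      ∑ j, ravg M fun m => ‖f j (τ j (a * sep (p j) m) x) - g j (τ j (a * sep (p j) m) x)‖ := by
  have e1 : (bavg M fun m => W m x * ∏ j ∈ s, f j (τ j (a * sep (p j) m) x)) =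
      (bavg M fun m => W m x * ∏ j ∈ s, g j (τ j (a * sep (p j) m) x)) +
      bavg M fun m => W m x * (∏ j ∈ s, f j (τ j (a * sep (p j) m) x) - ∏ j ∈ s, g j (τ j (a * sep (p j) m) x)) := by
    rw [← bavg_add]
    congr 1
    funext m
    ring
  rw [e1]
  refine (norm_add_le _ _).trans (add_le_add le_rfl ?_)
  rw [← rsum]
  refine (norm_bavg_le _ _).trans (rmono M fun m => ?_)
  rw [norm_mul]
  have h3 := prod_diff_c s (fun j => f j (τ j (a * sep (p j) m) x))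
    (fun j => g j (τ j (a * sep (p j) m) x)) (fun j _ => hf1 j _) (fun j _ => hg1 j _)
  calc ‖W m x‖ * ‖∏ j ∈ s, f j (τ j (a * sep (p j) m) x) -
        ∏ j ∈ s, g j (τ j (a * sep (p j) m) x)‖ ≤ 1 * ∑ j ∈ s, ‖f j (τ j (a * sep (p j) m) x) -
        g j (τ j (a * sep (p j) m) x)‖ := mul_le_mul (hW m x) h3 (norm_nonneg _) zero_le_one
    _ ≤ ∑ j, ‖f j (τ j (a * sep (p j) m) x) - g j (τ j (a * sep (p j) m) x)‖ := by
        rw [one_mul]
        exact sum_le_sum_of_subset_of_nonneg (subset_univ _) fun j _ _ => norm_nonneg _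

/-- approximation at a fixed time -/
theorem transfer_at (hτ : ∀ j, IsFlow μ (τ j)) (hS : ∀ j, Sg μ (τ j) (p j) a) (s : Finset (Fin r))
    {W : (Fin k → ℕ) → X → ℂ}
    (hW : ∀ m x, ‖W m x‖ ≤ 1) {f : Fin r → X → ℂ} (hf : ∀ j, Measurable (f j)) (hf1 : ∀ j x, ‖f j x‖ ≤ 1)
    {g : ℕ → Fin r → X → ℂ} (hg : ∀ i j, Measurable (g i j)) (hg1 : ∀ i j x, ‖g i j x‖ ≤ 1)
    (hfg : ∀ j, Tendsto (fun i => ∫ x, ‖f j x - g i j x‖ ∂μ) atTop (𝓝 0))
    (h : ∀ i, ∀ᵐ x ∂μ, Tendsto (fun M => bavg M fun m =>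
      W m x * ∏ j ∈ s, g i j (τ j (a * sep (p j) m) x)) atTop (𝓝 0)) :
    ∀ᵐ x ∂μ, Tendsto (fun M => bavg M fun m =>
      W m x * ∏ j ∈ s, f j (τ j (a * sep (p j) m) x)) atTop (𝓝 0) := by
  obtain ⟨E, hE⟩ : ∃ E : ℕ → Fin r → X → ℝ, ∀ i j, E i j = fun x => ‖f j x - g i j x‖ := ⟨_, fun i j => rfl⟩
  have hEm : ∀ i j, Measurable (E i j) := fun i j => by rw [hE]; exact ((hf j).sub (hg i j)).norm
  have hEb : ∀ i j x, 0 ≤ E i j x ∧ E i j x ≤ 2 := fun i j x => by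
    rw [hE]
    refine ⟨norm_nonneg _, (norm_sub_le _ _).trans ?_⟩
    linarith [hf1 j x, hg1 i j x]
  choose H hHi hH0 hHI hHl using fun i j => lim_int (hτ j) (hS j) (hEm i j) (hEb i j)
  obtain ⟨Ψ, hΨ⟩ : ∃ Ψ : ℕ → X → ℝ, ∀ i, Ψ i = fun x => ∑ j, H i j x := ⟨_, fun i => rfl⟩
  have hΨ0 : ∀ i, 0 ≤ᵐ[μ] Ψ i := by
    intro i
    filter_upwards [ae_all_iff.2 (hH0 i)] with x hx
    rw [hΨ]
    exact Finset.sum_nonneg fun j _ => hx j
  have hΨi : ∀ i, Integrable (Ψ i) μ := fun i => by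
    rw [hΨ]
    exact integrable_finsetSum _ fun j _ => hHi i j
  have hΨlim : Tendsto (fun i => ∫ x, Ψ i x ∂μ) atTop (𝓝 0) := by
    have h1 : ∀ i, ∫ x, Ψ i x ∂μ = ∑ j, ∫ x, ‖f j x - g i j x‖ ∂μ := by
      intro i
      rw [hΨ]
      simp only
      rw [integral_finsetSum _ fun j _ => hHi i j]
      refine Finset.sum_congr rfl fun j _ => ?_
      rw [hHI, hE]
    simp only [h1]
    have := tendsto_finsetSum (Finset.univ : Finset (Fin r)) fun j _ => hfg j
    simpa using this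
  filter_upwards [ae_all_iff.2 h, ae_all_iff.2 fun i => ae_all_iff.2 (hHl i), exists_small hΨ0 hΨi hΨlim]
    with x hx1 hx2 hx3
  rw [Metric.tendsto_nhds]
  intro ε hε
  obtain ⟨n, hn⟩ := exists_nat_one_div_lt hε
  obtain ⟨i, hi⟩ := hx3 n
  have h1 : Tendsto (fun M => ‖bavg M fun m => W m x * ∏ j ∈ s, g i j (τ j (a * sep (p j) m) x)‖ +
      ∑ j, ravg M fun m => E i j (τ j (a * sep (p j) m) x)) atTop (𝓝 (0 + Ψ i x)) := by
    rw [hΨ]
    refine Tendsto.add ?_ (tendsto_finsetSum _ fun j _ => hx2 i j)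
    have := (hx1 i).norm
    rwa [norm_zero] at this
  have h2 : 0 + Ψ i x < ε := by linarith
  filter_upwards [h1.eventually (gt_mem_nhds h2)] with M hM
  rw [dist_zero_right]
  refine lt_of_le_of_lt ?_ hM
  have h3 := avg_split (τ := τ) (p := p) (a := a) s W hW f (g i) hf1 (hg1 i) M x
  simp only [hE]
  exact h3

/-- approximation at a fixed time, in the mean -/
theorem transfer_L (hτ : ∀ j, IsFlow μ (τ j)) (s : Finset (Fin r)) {W : (Fin k → ℕ) → X → ℂ}
    (hWm : ∀ m, Measurable (W m))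
    (hW : ∀ m x, ‖W m x‖ ≤ 1) {f : Fin r → X → ℂ} (hf : ∀ j, Measurable (f j)) (hf1 : ∀ j x, ‖f j x‖ ≤ 1)
    {g : ℕ → Fin r → X → ℂ} (hg : ∀ i j, Measurable (g i j)) (hg1 : ∀ i j x, ‖g i j x‖ ≤ 1)
    (hfg : ∀ j, Tendsto (fun i => ∫ x, ‖f j x - g i j x‖ ∂μ) atTop (𝓝 0))
    (h : ∀ i, ∀ᵐ x ∂μ, Tendsto (fun M => bavg M fun m =>
      W m x * ∏ j ∈ s, g i j (τ j (a * sep (p j) m) x)) atTop (𝓝 0)) :
    Tendsto (fun M => ∫ x, ‖bavg M fun m =>
      W m x * ∏ j ∈ s, f j (τ j (a * sep (p j) m) x)‖ ∂μ) atTop (𝓝 0) := by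
  obtain ⟨E, hE⟩ : ∃ E : ℕ → Fin r → X → ℝ, ∀ i j, E i j = fun x => ‖f j x - g i j x‖ := ⟨_, fun i j => rfl⟩
  have hEm : ∀ i j, Measurable (E i j) := fun i j => by rw [hE]; exact ((hf j).sub (hg i j)).norm
  have hEb : ∀ i j x, 0 ≤ E i j x ∧ E i j x ≤ 2 := fun i j x => by
    rw [hE]
    refine ⟨norm_nonneg _, (norm_sub_le _ _).trans ?_⟩
    linarith [hf1 j x, hg1 i j x]
  obtain ⟨A, hA⟩ : ∃ A : (Fin r → X → ℂ) → (Fin k → ℕ) → X → ℂ, ∀ u M x, A u M x = bavg M fun m =>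
      W m x * ∏ j ∈ s, u j (τ j (a * sep (p j) m) x) := ⟨_, fun u M x => rfl⟩
  have hAm : ∀ u : Fin r → X → ℂ, (∀ j, Measurable (u j)) → ∀ M, Measurable (A u M) := by
    intro u hu M
    have : A u M = fun x => bavg M fun m => W m x * ∏ j ∈ s, u j (τ j (a * sep (p j) m) x) := funext (hA u M)
    rw [this]
    exact bavg_meas (fun m => (hWm m).mul (Finset.measurable_prod _ fun j _ => (hu j).comp ((hτ j).mp _).measurable)) M
  have hAb : ∀ u : Fin r → X → ℂ, (∀ j x, ‖u j x‖ ≤ 1) → ∀ M x, ‖A u M x‖ ≤ 1 := by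
    intro u hu M x
    rw [hA]
    refine bnorm M zero_le_one fun m => ?_
    rw [norm_mul]
    exact mul_le_one₀ (hW m x) (norm_nonneg _) (norm_prod_le_one _ _ fun j _ => hu j _)
  have hnice : ∀ i, Tendsto (fun M => ∫ x, ‖A (g i) M x‖ ∂μ) atTop (𝓝 0) := by
    intro i
    have h1 : Tendsto (fun M => ∫ x, ‖A (g i) M x‖ ∂μ) atTop (𝓝 (∫ _x : X, (0 : ℝ) ∂μ)) := by
      refine tendsto_integral_filter_of_dominated_convergence (fun _ => 1)
        (Eventually.of_forall fun M => (hAm _ (hg i) M).norm.aestronglyMeasurable)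
        (Eventually.of_forall fun M => ae_of_all _ fun x => ?_) (integrable_const _) ?_
      · rw [norm_norm]
        exact hAb _ (hg1 i) M x
      · filter_upwards [h i] with x hx
        have h2 := hx.norm
        rw [norm_zero] at h2
        refine h2.congr fun M => ?_
        rw [hA]
    rwa [integral_zero] at h1
  have hsumlim : Tendsto (fun i => ∑ j, ∫ x, ‖f j x - g i j x‖ ∂μ) atTop (𝓝 0) := by
    have := tendsto_finsetSum (Finset.univ : Finset (Fin r)) fun j _ => hfg j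
    simpa using this
  rw [Metric.tendsto_nhds]
  intro ε hε
  obtain ⟨i, hi⟩ := (hsumlim.eventually (gt_mem_nhds (half_pos hε))).exists
  filter_upwards [(hnice i).eventually (gt_mem_nhds (half_pos hε)), eventually_ge_atTop (fun _ : Fin k => 1)] with M hM hM1
  rw [dist_zero_right, Real.norm_of_nonneg (integral_nonneg fun x => norm_nonneg _)]
  have hAi : ∀ u : Fin r → X → ℂ, (∀ j, Measurable (u j)) → (∀ j x, ‖u j x‖ ≤ 1) → Integrable (fun x => ‖A u M x‖) μ := by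
    intro u hu hu1
    refine Integrable.of_bound (C := 1) (hAm u hu M).norm.aestronglyMeasurable (ae_of_all _ fun x => ?_)
    rw [norm_norm]
    exact hAb u hu1 M x
  have hEi : ∀ (j : Fin r) (m : Fin k → ℕ), Integrable (fun x => E i j (τ j (a * sep (p j) m) x)) μ := by
    intro j m
    refine Integrable.of_bound (C := 2) ((hEm i j).comp ((hτ j).mp _).measurable).aestronglyMeasurable
      (ae_of_all _ fun x => ?_)
    rw [Real.norm_of_nonneg (hEb i j _).1]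
    exact (hEb i j _).2
  have hEI : ∀ (j : Fin r) (m : Fin k → ℕ), ∫ x, E i j (τ j (a * sep (p j) m) x) ∂μ = ∫ x, ‖f j x - g i j x‖ ∂μ := by
    intro j m
    have h5 := (hτ j).mp (a * sep (p j) m)
    rw [← integral_map (φ := τ j (a * sep (p j) m)) (f := E i j) h5.measurable.aemeasurable
      (by rw [h5.map_eq]; exact (hEm i j).aestronglyMeasurable), h5.map_eq, hE]
  have hRi : ∀ j : Fin r, Integrable (fun x => ravg M fun m => E i j (τ j (a * sep (p j) m) x)) μ := fun j =>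
    ravg_int (hEi j) M
  have hle : ∫ x, ‖A f M x‖ ∂μ ≤ ∫ x, (‖A (g i) M x‖ + ∑ j, ravg M fun m => E i j (τ j (a * sep (p j) m) x)) ∂μ := by
    refine integral_mono_of_nonneg (ae_of_all _ fun x => norm_nonneg _) ((hAi _ (hg i) (hg1 i)).add
      (integrable_finsetSum _ fun j _ => hRi j)) (ae_of_all _ fun x => ?_)
    simp only
    rw [hA, hA]
    have h3 := avg_split (τ := τ) (p := p) (a := a) s W hW f (g i) hf1 (hg1 i) M x
    simp only [hE]
    exact h3
  have hI : ∫ x, (‖A (g i) M x‖ + ∑ j, ravg M fun m => E i j (τ j (a * sep (p j) m) x)) ∂μ =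
      ∫ x, ‖A (g i) M x‖ ∂μ + ∑ j, ∫ x, ‖f j x - g i j x‖ ∂μ := by
    rw [integral_add (hAi _ (hg i) (hg1 i)) (integrable_finsetSum _ fun j _ => hRi j),
      integral_finsetSum _ fun j _ => hRi j]
    congr 1
    refine sum_congr rfl fun j _ => ?_
    rw [ravg_integral (hEi j)]
    have h4 : (fun m : Fin k → ℕ => ∫ x, E i j (τ j (a * sep (p j) m) x) ∂μ) = fun _ => ∫ x, ‖f j x - g i j x‖ ∂μ :=
      funext (hEI j)
    rw [h4]
    exact rconst (fun l => hM1 l) _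
  have hfin : ∫ x, ‖A f M x‖ ∂μ < ε := by
    rw [hI] at hle
    linarith
  refine lt_of_le_of_lt (le_of_eq ?_) hfin
  refine integral_congr_ae (ae_of_all _ fun x => ?_)
  simp only
  rw [hA]

end transfer

end Pool.Agent.U587.BX
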