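import Pool.Agent.U587.BX.Top

set_option autoImplicit false

/-!
Boxes: general functions and weights; products with distinct degrees.
-/

namespace Pool.Agent.U587.BX

open MeasureTheory Filter Finset
open Pool.Agent.Y957.MC (IsFlow flowInv smo smo_lip bavg box)
open Pool.Agent.R497.TB
open Pool.Agent.R506.TDFG (exists_version)
open Pool.Agent.R780.TB (norm_bavg_le bavg_add bavg_mul)
open Pool.Agent.Y312.MC (flowInv_le)
open Pool.Agent.U587.DX (dm dm_mono weights_version)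
open scoped ENNReal NNReal Topology

universe u

variable {X : Type u} [mX : MeasurableSpace X] {μ : Measure X} {k : ℕ}

/-- the factor of highest degree decouples, general functions and weights -/
theorem top_gen [IsProbabilityMeasure μ] [IsSeparable μ] (hk : 0 < k) {r : ℕ} {τ : Fin r → ℝ → X → X}
    (hτ : ∀ j, IsFlow μ (τ j))
    {p : Fin r → Fin k → Polynomial ℝ} {e : Fin r → ℕ} (hp : ∀ j, SD (p j) (e j)) {d : ℕ} (hd : ∀ j, e j ≤ d)
    {W : (Fin k → ℕ) → X → ℂ} (hWm : ∀ n, AEStronglyMeasurable (W n) μ) (hWb : ∃ C : ℝ, ∀ n, ∀ᵐ x ∂μ, ‖W n x‖ ≤ C) :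
    ∃ D : Set ℝ, dimH D ≤ dm d ∧ ∀ a, a ∉ D → ∀ (s : Finset (Fin r)) (t : Fin r),
      t ∉ s → (∀ j ∈ s, e j < e t) → ∀ f : Fin r → X → ℂ,
      (∀ j, AEStronglyMeasurable (f j) μ) → (∀ j, ∃ C : ℝ, ∀ᵐ x ∂μ, ‖f j x‖ ≤ C) →
      Tendsto (fun M => ∫ x, ‖bavg M fun m =>
        (W m x * ∏ j ∈ s, f j (τ j (a * sep (p j) m) x)) *
          (f t (τ t (a * sep (p t) m) x) - (μ[f t | flowInv (τ t)]) x)‖ ∂μ) atTop (𝓝 0) ∧
      ((∀ j, Sg μ (τ j) (p j) a) → ∀ᵐ x ∂μ, Tendsto (fun M => bavg M fun m =>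
        (W m x * ∏ j ∈ s, f j (τ j (a * sep (p j) m) x)) *
          (f t (τ t (a * sep (p t) m) x) - (μ[f t | flowInv (τ t)]) x)) atTop (𝓝 0)) := by
  classical
  obtain ⟨M₀, V, hM0, hVm, hV1, hVW⟩ := weights_version hWm hWb
  obtain ⟨D, hD, hDa⟩ := top_norm hk hτ hp hd hVm hV1
  refine ⟨D, hD, fun a ha s t hts hst f hf hfb => ?_⟩
  choose g hgm hgb hfg using fun j => exists_version (hf j) (hfb j)
  choose K hK using hgb
  obtain ⟨R, hR⟩ : ∃ R : ℝ, R = 8 * (∑ j, |K j| + 1) := ⟨_, rfl⟩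
  have hR0 : 0 < R := by
    rw [hR]
    have : 0 ≤ ∑ j, |K j| := Finset.sum_nonneg fun j _ => abs_nonneg _
    linarith
  have hRc : (R : ℂ) ≠ 0 := by exact_mod_cast hR0.ne'
  have hgR : ∀ j x, ‖(R : ℂ)⁻¹ * g j x‖ ≤ 1 / 8 := by
    intro j x
    rw [norm_mul, norm_inv, Complex.norm_real, Real.norm_of_nonneg hR0.le, inv_mul_le_iff₀ hR0]
    have h1 := (hK j x).trans (le_abs_self _)
    have h2 : |K j| ≤ ∑ j, |K j| :=
      Finset.single_le_sum (f := fun j => |K j|) (fun i _ => abs_nonneg _) (Finset.mem_univ j)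
    rw [hR]
    linarith
  have key := hDa a ha s t hts hst (fun j x => (R : ℂ)⁻¹ * g j x) (fun j => measurable_const.mul (hgm j)) hgR
  have hver2 : ∀ᵐ x ∂μ, ∀ (j : Fin r) (n : Fin k → ℕ), f j (τ j (a * sep (p j) n) x) =
      g j (τ j (a * sep (p j) n) x) := by
    rw [ae_all_iff]
    intro j
    rw [ae_all_iff]
    intro n
    exact ((hτ j).mp _).quasiMeasurePreserving.ae (hfg j)
  have hce : μ[fun x => (R : ℂ)⁻¹ * g t x | flowInv (τ t)] =ᵐ[μ] fun x => (R : ℂ)⁻¹ * (μ[f t | flowInv (τ t)]) x := by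
    have h1 : μ[(R : ℂ)⁻¹ • g t | flowInv (τ t)] =ᵐ[μ] (R : ℂ)⁻¹ • μ[g t | flowInv (τ t)] := condExp_smul _ _ _
    have h2 : μ[f t | flowInv (τ t)] =ᵐ[μ] μ[g t | flowInv (τ t)] := condExp_congr_ae (hfg t)
    have h3 : (fun x => (R : ℂ)⁻¹ * g t x) = (R : ℂ)⁻¹ • g t := rfl
    rw [h3]
    filter_upwards [h1, h2] with x hx1 hx2
    rw [hx1, Pi.smul_apply, smul_eq_mul, hx2]
  have hid : ∀ᵐ x ∂μ, ∀ M : Fin k → ℕ, ((M₀ : ℂ) * (R : ℂ) ^ (s.card + 1)) * (bavg M fun n =>
        (V n x * ∏ j ∈ s, (fun j x => (R : ℂ)⁻¹ * g j x) j (τ j (a * sep (p j) n) x)) *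
          ((fun j x => (R : ℂ)⁻¹ * g j x) t (τ t (a * sep (p t) n) x) -
            (μ[(fun j x => (R : ℂ)⁻¹ * g j x) t | flowInv (τ t)]) x)) = bavg M fun n =>
        (W n x * ∏ j ∈ s, f j (τ j (a * sep (p j) n) x)) *
          (f t (τ t (a * sep (p t) n) x) - (μ[f t | flowInv (τ t)]) x) := by
    filter_upwards [hver2, hce, ae_all_iff.2 hVW] with x h2 h3 h4 M
    rw [← bavg_mul]
    congr 1
    funext n
    rw [h3, h4 n, h2 t n]
    have e1 : ∏ j ∈ s, f j (τ j (a * sep (p j) n) x) = ∏ j ∈ s, g j (τ j (a * sep (p j) n) x) :=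
      prod_congr rfl fun j _ => h2 j n
    rw [e1, prod_mul_distrib, prod_const]
    have hRs : (R : ℂ) ^ s.card ≠ 0 := pow_ne_zero _ hRc
    have e2 : (R : ℂ)⁻¹ * g t (τ t (a * sep (p t) n) x) - (R : ℂ)⁻¹ * (μ[f t | flowInv (τ t)]) x =
        (R : ℂ)⁻¹ * (g t (τ t (a * sep (p t) n) x) - (μ[f t | flowInv (τ t)]) x) := by ring
    rw [e2, pow_succ, inv_pow]
    field_simp
  refine ⟨?_, fun hS => ?_⟩
  · have h5 := key.1.const_mul ‖(M₀ : ℂ) * (R : ℂ) ^ (s.card + 1)‖
    rw [mul_zero] at h5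
    refine h5.congr fun M => ?_
    rw [← integral_const_mul]
    refine integral_congr_ae ?_
    filter_upwards [hid] with x hx
    rw [← norm_mul, hx M]
  · filter_upwards [key.2 hS, hid] with x hx h2
    have h5 := hx.const_mul ((M₀ : ℂ) * (R : ℂ) ^ (s.card + 1))
    rw [mul_zero] at h5
    exact h5.congr fun M => h2 M

/-- distinct degrees -/
theorem prod_gen [IsProbabilityMeasure μ] [IsSeparable μ] (hk : 0 < k) {r : ℕ} {τ : Fin r → ℝ → X → X}
    (hτ : ∀ j, IsFlow μ (τ j))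
    {p : Fin r → Fin k → Polynomial ℝ} {e : Fin r → ℕ} (hp : ∀ j, SD (p j) (e j)) {d : ℕ} (hd : ∀ j, e j ≤ d)
    {W : (Fin k → ℕ) → X → ℂ} (hWm : ∀ n, AEStronglyMeasurable (W n) μ) (hWb : ∃ C : ℝ, ∀ n, ∀ᵐ x ∂μ, ‖W n x‖ ≤ C)
    (hinj : Function.Injective e) :
    ∃ D : Set ℝ, dimH D ≤ dm d ∧ ∀ a, a ∉ D → ∀ f : Fin r → X → ℂ,
      (∀ j, AEStronglyMeasurable (f j) μ) → (∀ j, ∃ C : ℝ, ∀ᵐ x ∂μ, ‖f j x‖ ≤ C) →
      Tendsto (fun M => ∫ x, ‖bavg M fun m => W m x *
        (∏ j, f j (τ j (a * sep (p j) m) x) - ∏ j, (μ[f j | flowInv (τ j)]) x)‖ ∂μ) atTop (𝓝 0) ∧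
      ((∀ j, Sg μ (τ j) (p j) a) → ∀ᵐ x ∂μ, Tendsto (fun M => bavg M fun m => W m x *
        (∏ j, f j (τ j (a * sep (p j) m) x) - ∏ j, (μ[f j | flowInv (τ j)]) x)) atTop (𝓝 0)) := by
  classical
  obtain ⟨D, hD, hDa⟩ := top_gen hk hτ hp hd hWm hWb
  refine ⟨D, hD, fun a ha f hf hfb => ?_⟩
  choose C hC using hfb
  obtain ⟨CW, hCW⟩ := hWb
  have hcb : ∀ j, ∀ᵐ x ∂μ, ‖(μ[f j | flowInv (τ j)]) x‖ ≤ |C j| := by
    intro j
    have h1 := ae_bdd_norm_condExp_of_ae_bdd_norm (m := flowInv (τ j)) (μ := μ) (f := f j) (R := |C j|) (by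
      filter_upwards [hC j] with x hx
      exact hx.trans (le_abs_self _))
    exact h1
  have hfo : ∀ᵐ x ∂μ, ∀ (j : Fin r) (n : Fin k → ℕ), ‖f j (τ j (a * sep (p j) n) x)‖ ≤ |C j| := by
    rw [ae_all_iff]
    intro j
    rw [ae_all_iff]
    intro n
    filter_upwards [((hτ j).mp _).quasiMeasurePreserving.ae (hC j)] with x hx
    exact hx.trans (le_abs_self _)
  have hbm : ∀ (h : (Fin k → ℕ) → X → ℂ), (∀ m, AEStronglyMeasurable (h m) μ) → ∀ M : Fin k → ℕ,
      AEStronglyMeasurable (fun x => bavg M fun m => h m x) μ := by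
    intro h hh M
    unfold bavg
    refine AEStronglyMeasurable.const_mul ?_ _
    have h1 : (fun x => ∑ n ∈ box M, h n x) = ∑ n ∈ box M, h n := by
      funext x
      rw [Finset.sum_apply]
    rw [h1]
    exact Finset.aestronglyMeasurable_sum _ fun n _ => hh n
  suffices H : ∀ s : Finset (Fin r),
      Tendsto (fun M => ∫ x, ‖bavg M fun m => W m x *
        (∏ j ∈ s, f j (τ j (a * sep (p j) m) x) - ∏ j ∈ s, (μ[f j | flowInv (τ j)]) x)‖ ∂μ)
        atTop (𝓝 0) ∧
      ((∀ j, Sg μ (τ j) (p j) a) → ∀ᵐ x ∂μ,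
      Tendsto (fun M => bavg M fun m => W m x *
        (∏ j ∈ s, f j (τ j (a * sep (p j) m) x) - ∏ j ∈ s, (μ[f j | flowInv (τ j)]) x))
        atTop (𝓝 0)) from H univ
  have hAmeas : ∀ (s : Finset (Fin r)) (M : Fin k → ℕ), AEStronglyMeasurable (fun x => bavg M fun m => W m x *
        (∏ j ∈ s, f j (τ j (a * sep (p j) m) x) - ∏ j ∈ s, (μ[f j | flowInv (τ j)]) x)) μ := by
    intro s M
    refine hbm (fun n x => W n x *
        (∏ j ∈ s, f j (τ j (a * sep (p j) n) x) - ∏ j ∈ s, (μ[f j | flowInv (τ j)]) x)) (fun n => ?_) M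
    refine (hWm n).mul (AEStronglyMeasurable.sub ?_ ?_)
    · have h2 : (fun x => ∏ j ∈ s, f j (τ j (a * sep (p j) n) x)) =
          ∏ j ∈ s, fun x => f j (τ j (a * sep (p j) n) x) := by
        funext x
        rw [Finset.prod_apply]
      rw [h2]
      exact Finset.aestronglyMeasurable_prod _ fun j _ => (hf j).comp_measurePreserving ((hτ j).mp _)
    · have h2 : (fun x => ∏ j ∈ s, (μ[f j | flowInv (τ j)]) x) = ∏ j ∈ s, (μ[f j | flowInv (τ j)]) := by
        funext x
        rw [Finset.prod_apply]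
      rw [h2]
      exact Finset.aestronglyMeasurable_prod _ fun j _ => integrable_condExp.aestronglyMeasurable
  have hTmeas : ∀ (s : Finset (Fin r)) (t : Fin r) (M : Fin k → ℕ), AEStronglyMeasurable (fun x => bavg M fun m =>
      (W m x * ∏ j ∈ s, f j (τ j (a * sep (p j) m) x)) *
          (f t (τ t (a * sep (p t) m) x) - (μ[f t | flowInv (τ t)]) x)) μ := by
    intro s t M
    refine hbm (fun n x => (W n x * ∏ j ∈ s, f j (τ j (a * sep (p j) n) x)) *
          (f t (τ t (a * sep (p t) n) x) - (μ[f t | flowInv (τ t)]) x)) (fun n => ?_) M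
    refine AEStronglyMeasurable.mul ((hWm n).mul ?_)
      (((hf t).comp_measurePreserving ((hτ t).mp _)).sub integrable_condExp.aestronglyMeasurable)
    have h2 : (fun x => ∏ j ∈ s, f j (τ j (a * sep (p j) n) x)) =
        ∏ j ∈ s, fun x => f j (τ j (a * sep (p j) n) x) := by
      funext x
      rw [Finset.prod_apply]
    rw [h2]
    exact Finset.aestronglyMeasurable_prod _ fun j _ => (hf j).comp_measurePreserving ((hτ j).mp _)
  have hprodb : ∀ (s : Finset (Fin r)) (u : Fin r → ℂ), (∀ j, ‖u j‖ ≤ |C j|) → ‖∏ j ∈ s, u j‖ ≤ ∏ j ∈ s, |C j| := by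
    intro s u hu
    rw [norm_prod]
    exact Finset.prod_le_prod (fun j _ => norm_nonneg _) fun j _ => hu j
  intro s
  induction s using Finset.induction_on_max_value e with
  | empty =>
    constructor
    · simp only [prod_empty, sub_self, mul_zero]
      have e0 : ∀ M : Fin k → ℕ, (bavg M fun _ => (0 : ℂ)) = 0 := fun M => by
        unfold bavg
        rw [sum_const_zero, mul_zero]
      simp only [e0, norm_zero, integral_zero]
      exact tendsto_const_nhds
    · intro _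
      refine Eventually.of_forall fun x => ?_
      simp only [prod_empty, sub_self, mul_zero]
      have e0 : ∀ M : Fin k → ℕ, (bavg M fun _ => (0 : ℂ)) = 0 := fun M => by
        unfold bavg
        rw [sum_const_zero, mul_zero]
      simp only [e0]
      exact tendsto_const_nhds
  | insert i s hi hmax ih =>
    have hdi : ∀ j ∈ s, e j < e i := by
      intro j hj
      refine lt_of_le_of_ne (hmax j hj) fun h => ?_
      have h5 : j = i := hinj h
      rw [h5] at hj
      exact hi hj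
    have ht := hDa a ha s i hi hdi f hf (fun j => ⟨C j, hC j⟩)
    have hid : ∀ (x : X) (M : Fin k → ℕ), (bavg M fun n => W n x *
        (∏ j ∈ insert i s, f j (τ j (a * sep (p j) n) x) - ∏ j ∈ insert i s, (μ[f j | flowInv (τ j)]) x)) =
        (bavg M fun n => (W n x * ∏ j ∈ s, f j (τ j (a * sep (p j) n) x)) *
          (f i (τ i (a * sep (p i) n) x) - (μ[f i | flowInv (τ i)]) x)) +
        (μ[f i | flowInv (τ i)]) x * (bavg M fun n => W n x *
        (∏ j ∈ s, f j (τ j (a * sep (p j) n) x) - ∏ j ∈ s, (μ[f j | flowInv (τ j)]) x)) := by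
      intro x M
      rw [← bavg_mul, ← bavg_add]
      congr 1
      funext n
      rw [prod_insert hi, prod_insert hi]
      ring
    constructor
    · have h6 := ht.1.add (ih.1.const_mul |C i|)
      rw [mul_zero, add_zero] at h6
      refine squeeze_zero (fun M => integral_nonneg fun x => norm_nonneg _) (fun M => ?_) h6
      have hK0 : ∀ s' : Finset (Fin r), 0 ≤ ∏ j ∈ s', |C j| := fun s' => prod_nonneg fun j _ => abs_nonneg _
      have j1 : Integrable (fun x => ‖bavg M fun n =>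
          (W n x * ∏ j ∈ s, f j (τ j (a * sep (p j) n) x)) *
          (f i (τ i (a * sep (p i) n) x) - (μ[f i | flowInv (τ i)]) x)‖) μ := by
        refine Integrable.of_bound (C := (|CW| * ∏ j ∈ s, |C j|) * (|C i| + |C i|)) (hTmeas s i M).norm ?_
        filter_upwards [ae_all_iff.2 hCW, hfo, hcb i] with x hx1 hx2 hx3
        rw [norm_norm]
        refine bnorm M (mul_nonneg (mul_nonneg (abs_nonneg _) (hK0 s)) (by positivity)) fun n => ?_
        rw [norm_mul, norm_mul]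
        refine mul_le_mul (mul_le_mul ((hx1 n).trans (le_abs_self _)) (hprodb s _ fun j => hx2 j n) (norm_nonneg _)
          (abs_nonneg _)) ((norm_sub_le _ _).trans (add_le_add (hx2 i n) hx3)) (norm_nonneg _)
          (mul_nonneg (abs_nonneg _) (hK0 s))
      have j2 : Integrable (fun x => ‖bavg M fun n => W n x *
          (∏ j ∈ s, f j (τ j (a * sep (p j) n) x) - ∏ j ∈ s, (μ[f j | flowInv (τ j)]) x)‖) μ := by
        refine Integrable.of_bound (C := |CW| * (∏ j ∈ s, |C j| + ∏ j ∈ s, |C j|)) (hAmeas s M).norm ?_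
        filter_upwards [ae_all_iff.2 hCW, hfo, ae_all_iff.2 hcb] with x hx1 hx2 hx3
        rw [norm_norm]
        refine bnorm M (mul_nonneg (abs_nonneg _) (add_nonneg (hK0 s) (hK0 s))) fun n => ?_
        rw [norm_mul]
        exact mul_le_mul ((hx1 n).trans (le_abs_self _)) ((norm_sub_le _ _).trans
          (add_le_add (hprodb s _ fun j => hx2 j n) (hprodb s _ fun j => hx3 j))) (norm_nonneg _) (abs_nonneg _)
      rw [← integral_const_mul, ← integral_add j1 (j2.const_mul _)]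
      refine integral_mono_of_nonneg (ae_of_all _ fun x => norm_nonneg _) (j1.add (j2.const_mul _)) ?_
      filter_upwards [hcb i] with x hx
      rw [hid x M]
      refine (norm_add_le _ _).trans (add_le_add le_rfl ?_)
      rw [norm_mul]
      exact mul_le_mul_of_nonneg_right hx (norm_nonneg _)
    · intro hS
      filter_upwards [ih.2 hS, ht.2 hS] with x hx1 hx2
      have h5 := hx2.add (hx1.const_mul ((μ[f i | flowInv (τ i)]) x))
      rw [mul_zero, add_zero] at h5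
      exact h5.congr fun M => (hid x M).symm

end Pool.Agent.U587.BX
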