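import Pool.Agent.U587.BX.Fix

set_option autoImplicit false

/-!
The pointwise ergodic theorem for one function over unrestricted boxes follows from the one in one variable
(the argument of Dunford and Zygmund for bounded functions).
-/

namespace Pool.Agent.U587.BX

open MeasureTheory Filter Finset
open Pool.Agent.Y957.MC (IsFlow flowInv smo box bavg)
open Pool.Agent.R497.TB
open Pool.Agent.U587.ET (exists_small)
open scoped ENNReal NNReal Topology

universe u

lemma ravg_cons {k : ℕ} (M : Fin (k + 1) → ℕ) (F : (Fin (k + 1) → ℕ) → ℝ) :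
    ravg M F = ravg (Fin.tail M) fun m => (1 / ((M 0 : ℕ) : ℝ)) * ∑ n ∈ Icc 1 (M 0), F (Fin.cons n m) := by
  unfold ravg
  have h1 : ∑ m ∈ box M, F m = ∑ q ∈ Icc 1 (M 0) ×ˢ box (Fin.tail M), F (Fin.cons q.1 q.2) := by
    refine Finset.sum_nbij' (fun m => (m 0, Fin.tail m)) (fun q => Fin.cons q.1 q.2) ?_ ?_ ?_ ?_ ?_
    · intro m hm
      unfold Pool.Agent.Y957.MC.box at hm ⊢
      rw [Fintype.mem_piFinset] at hm
      rw [mem_product, Fintype.mem_piFinset]
      exact ⟨hm 0, fun l => hm l.succ⟩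
    · rintro ⟨n, m⟩ hq
      unfold Pool.Agent.Y957.MC.box at hq ⊢
      rw [mem_product, Fintype.mem_piFinset] at hq
      rw [Fintype.mem_piFinset]
      intro l
      refine Fin.cases ?_ (fun l => ?_) l
      · simpa using hq.1
      · simpa [Fin.tail] using hq.2 l
    · intro m _
      exact Fin.cons_self_tail m
    · rintro ⟨n, m⟩ _
      simp
    · intro m _
      simp only
      rw [Fin.cons_self_tail]
  rw [h1, sum_product_right, Fin.prod_univ_succ, ← mul_sum]
  push_cast
  have h2 : (∏ i, (Fin.tail M i : ℕ) : ℝ) = ∏ i : Fin k, ((M i.succ : ℕ) : ℝ) := rfl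
  rw [h2]
  simp only [one_div, mul_inv]
  ring

lemma sep_cons {k : ℕ} (p : Fin (k + 1) → Polynomial ℝ) (n : ℕ) (m : Fin k → ℕ) :
    sep p (Fin.cons n m) = (p 0).eval (n : ℝ) + sep (Fin.tail p) m := by
  unfold sep
  rw [Fin.sum_univ_succ]
  simp [Fin.tail]

lemma tail_tendsto (k : ℕ) : Tendsto (fun M : Fin (k + 1) → ℕ => Fin.tail M) atTop atTop := by
  rw [tendsto_atTop_atTop]
  intro b
  refine ⟨Fin.cons 0 b, fun M hM l => ?_⟩
  have := hM l.succ
  simpa [Fin.tail] using this

lemma head_tendsto (k : ℕ) : Tendsto (fun M : Fin (k + 1) → ℕ => M 0) atTop atTop := by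
  rw [tendsto_atTop_atTop]
  intro b
  exact ⟨fun _ => b, fun M hM => hM 0⟩

lemma rsub {k : ℕ} (M : Fin k → ℕ) (h h' : (Fin k → ℕ) → ℝ) :
    |ravg M h - ravg M h'| ≤ ravg M fun m => |h m - h' m| := by
  unfold ravg
  rw [← mul_sub, ← sum_sub_distrib, abs_mul, abs_of_nonneg (by positivity)]
  exact mul_le_mul_of_nonneg_left (abs_sum_le_sum_abs _ _) (by positivity)

variable {X : Type u} [mX : MeasurableSpace X] {μ : Measure X}

/-- from one variable to boxes -/
theorem sg_iter [IsProbabilityMeasure μ] {τ : ℝ → X → X} (hτ : IsFlow μ τ) {a : ℝ} :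
    ∀ {k : ℕ} (p : Fin k → Polynomial ℝ), (∀ l, Pool.Agent.U587.DX.Sg μ τ (p l) a) → Sg μ τ p a := by
  intro k
  induction k with
  | zero =>
    intro p _ h _ _
    refine Eventually.of_forall fun x => ?_
    refine ⟨ravg default fun m => h (τ (a * sep p m) x), ?_⟩
    refine tendsto_const_nhds.congr fun M => ?_
    rw [Subsingleton.elim M default]
  | succ k ih =>
    intro p hp h hm hb
    obtain ⟨C, hC⟩ := hb
    obtain ⟨T, hT⟩ : ∃ T : ℕ → X → ℝ, T = fun (N : ℕ) x => (1 / (N : ℝ)) * ∑ n ∈ Icc 1 N,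
      h (τ (a * (p 0).eval (n : ℝ)) x) := ⟨_, rfl⟩
    have hTm : ∀ N, Measurable (T N) := fun N => by
      rw [hT]
      refine measurable_const.mul (Finset.measurable_sum _ fun n _ => ?_)
      exact hm.comp (hτ.mp _).measurable
    rcases isEmpty_or_nonempty X with hX | ⟨⟨x0⟩⟩
    · exact Eventually.of_forall fun x => (hX.false x).elim
    have hC0 : 0 ≤ C := (abs_nonneg _).trans (hC x0)
    have hTb : ∀ N x, |T N x| ≤ C := by
      intro N x
      rw [hT]
      simp only
      rcases Nat.eq_zero_or_pos N with hN | hN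
      · rw [hN]; simpa using hC0
      · have hN0 : (0 : ℝ) < N := by exact_mod_cast hN
        rw [abs_mul, abs_of_pos (by positivity : (0 : ℝ) < 1 / N), one_div, inv_mul_le_iff₀ hN0]
        refine (abs_sum_le_sum_abs _ _).trans ((sum_le_sum fun n _ => hC _).trans ?_)
        rw [sum_const, Nat.card_Icc, nsmul_eq_mul]
        simp
    obtain ⟨H, hH⟩ : ∃ H : X → ℝ, H = fun x => limsup (fun N => T N x) atTop := ⟨_, rfl⟩
    have hHm : Measurable H := by rw [hH]; exact Measurable.limsup hTm
    have hbd1 : ∀ x, IsBoundedUnder (· ≤ ·) atTop (fun N => T N x) := fun x =>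
      isBoundedUnder_of ⟨C, fun N => (abs_le.1 (hTb N x)).2⟩
    have hbd2 : ∀ x, IsBoundedUnder (· ≥ ·) atTop (fun N => T N x) := fun x =>
      isBoundedUnder_of ⟨-C, fun N => (abs_le.1 (hTb N x)).1⟩
    have hHb : ∀ x, |H x| ≤ C := fun x => by
      rw [hH, abs_le]
      constructor
      · exact le_limsup_of_frequently_le (Frequently.of_forall fun N => (abs_le.1 (hTb N x)).1) (hbd1 x)
      · exact limsup_le_of_le (hbd2 x).isCoboundedUnder_le (Eventually.of_forall fun N => (abs_le.1 (hTb N x)).2)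
    have hlim : ∀ᵐ x ∂μ, Tendsto (fun N => T N x) atTop (𝓝 (H x)) := by
      filter_upwards [hp 0 h hm ⟨C, hC⟩] with x hx
      obtain ⟨L, hL⟩ := hx
      have hL' : Tendsto (fun N => T N x) atTop (𝓝 L) := by rw [hT]; exact hL
      have : H x = L := by rw [hH]; exact hL'.limsup_eq
      rw [this]
      exact hL'
    obtain ⟨G, hG⟩ : ∃ G : ℕ → X → ℝ, G = fun N x => ⨆ n : ℕ, |T (N + n) x - H x| := ⟨_, rfl⟩
    have hdb : ∀ N x, |T N x - H x| ≤ 2 * C := fun N x =>
      (abs_sub _ _).trans (by linarith [hTb N x, hHb x])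
    have hGbdd : ∀ N x, BddAbove (Set.range fun n : ℕ => |T (N + n) x - H x|) := fun N x =>
      ⟨2 * C, by rintro _ ⟨n, rfl⟩; exact hdb _ _⟩
    have hGm : ∀ N, Measurable (G N) := fun N => by
      rw [hG]
      exact Measurable.iSup fun n => ((hTm _).sub hHm).abs
    have hG0 : ∀ N x, 0 ≤ G N x := fun N x => by
      rw [hG]
      exact (abs_nonneg _).trans (le_ciSup (hGbdd N x) 0)
    have hGb : ∀ N x, G N x ≤ 2 * C := fun N x => by
      rw [hG]
      exact ciSup_le fun n => hdb _ _
    have hGT : ∀ N M x, N ≤ M → |T M x - H x| ≤ G N x := fun N M x hNM => by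
      obtain ⟨n, rfl⟩ := Nat.exists_eq_add_of_le hNM
      rw [hG]
      exact le_ciSup (hGbdd N x) n
    have hGlim : ∀ᵐ x ∂μ, Tendsto (fun N => G N x) atTop (𝓝 0) := by
      filter_upwards [hlim] with x hx
      rw [Metric.tendsto_atTop]
      intro ε hε
      obtain ⟨N0, hN0⟩ := Metric.tendsto_atTop.1 hx (ε / 2) (half_pos hε)
      refine ⟨N0, fun N hN => ?_⟩
      rw [Real.dist_eq, sub_zero, abs_of_nonneg (hG0 N x)]
      have : G N x ≤ ε / 2 := by
        rw [hG]
        refine ciSup_le fun n => ?_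
        have := hN0 (N + n) (by omega)
        rw [Real.dist_eq] at this
        exact this.le
      linarith
    have hGint : Tendsto (fun N => ∫ x, G N x ∂μ) atTop (𝓝 0) := by
      have h1 : Tendsto (fun N => ∫ x, G N x ∂μ) atTop (𝓝 (∫ _x : X, (0 : ℝ) ∂μ)) := by
        refine tendsto_integral_of_dominated_convergence (fun _ => 2 * C) (fun N => (hGm N).aestronglyMeasurable)
          (integrable_const _) (fun N => ae_of_all _ fun x => ?_) hGlim
        rw [Real.norm_of_nonneg (hG0 N x)]
        exact hGb N x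
      rwa [integral_zero] at h1
    have hS := ih (Fin.tail p) fun l => hp l.succ
    choose L hLi hL0 hLI hLl using fun N => lim_int hτ hS (hGm N) (C := 2 * C) fun x => ⟨hG0 N x, hGb N x⟩
    have hLlim : Tendsto (fun N => ∫ x, L N x ∂μ) atTop (𝓝 0) := by
      simp only [hLI]
      exact hGint
    filter_upwards [hS H hHm ⟨C, hHb⟩, ae_all_iff.2 hLl, exists_small hL0 hLi hLlim] with x hx1 hx2 hx3
    obtain ⟨l, hl⟩ := hx1
    refine ⟨l, ?_⟩
    have hid : ∀ M : Fin (k + 1) → ℕ, (ravg M fun m => h (τ (a * sep p m) x)) =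
        ravg (Fin.tail M) fun m => T (M 0) (τ (a * sep (Fin.tail p) m) x) := by
      intro M
      rw [ravg_cons]
      congr 1
      funext m
      rw [hT]
      simp only
      congr 1
      refine sum_congr rfl fun n _ => ?_
      rw [sep_cons, mul_add, hτ.add]
    rw [Metric.tendsto_nhds]
    intro ε hε
    obtain ⟨n, hn⟩ := exists_nat_one_div_lt (half_pos hε)
    obtain ⟨N, hN⟩ := hx3 n
    have e1 := (hl.comp (tail_tendsto k)).eventually (Metric.ball_mem_nhds l (half_pos hε))
    have e2 := ((hx2 N).comp (tail_tendsto k)).eventually (gt_mem_nhds (hN.trans hn))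
    filter_upwards [e1, e2, (head_tendsto k).eventually_ge_atTop N] with M h1 h2 h3
    rw [hid, Real.dist_eq]
    simp only [Function.comp, Real.dist_eq] at h1 h2
    have h4 := rsub (Fin.tail M) (fun m => T (M 0) (τ (a * sep (Fin.tail p) m) x))
      (fun m => H (τ (a * sep (Fin.tail p) m) x))
    have h5 := rmono (Fin.tail M) (h := fun m => |T (M 0) (τ (a * sep (Fin.tail p) m) x) -
      H (τ (a * sep (Fin.tail p) m) x)|) (h' := fun m => G N (τ (a * sep (Fin.tail p) m) x))
      fun m => hGT N (M 0) _ h3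
    have h6 : |(ravg (Fin.tail M) fun m => T (M 0) (τ (a * sep (Fin.tail p) m) x)) - l| ≤
        |(ravg (Fin.tail M) fun m => T (M 0) (τ (a * sep (Fin.tail p) m) x)) -
          ravg (Fin.tail M) fun m => H (τ (a * sep (Fin.tail p) m) x)| +
        |(ravg (Fin.tail M) fun m => H (τ (a * sep (Fin.tail p) m) x)) - l| := by
      have := abs_add_le ((ravg (Fin.tail M) fun m => T (M 0) (τ (a * sep (Fin.tail p) m) x)) -
          ravg (Fin.tail M) fun m => H (τ (a * sep (Fin.tail p) m) x))
          ((ravg (Fin.tail M) fun m => H (τ (a * sep (Fin.tail p) m) x)) - l)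
      rwa [sub_add_sub_cancel] at this
    linarith

end Pool.Agent.U587.BX
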