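import Pool.Agent.U587.BX.Gen
import Pool.Agent.U587.BX.Iter

set_option autoImplicit false

/-!
Boxes: convergence in `L²`.
-/

namespace Pool.Agent.U587.BX

open MeasureTheory Filter Finset
open Pool.Agent.Y957.MC (IsFlow flowInv smo smo_lip bavg box)
open Pool.Agent.R497.TB
open Pool.Agent.U587.DX (dm)
open scoped ENNReal NNReal Topology

universe u

variable {X : Type u} [mX : MeasurableSpace X] {μ : Measure X} {k : ℕ}

lemma sq_of [IsProbabilityMeasure μ] {κ : Type*} {l : Filter κ} {F : κ → X → ℂ} {K : ℝ}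
    (hm : ∀ M, AEStronglyMeasurable (F M) μ) (hb : ∀ᵐ x ∂μ, ∀ M, ‖F M x‖ ≤ K)
    (h : Tendsto (fun M => ∫ x, ‖F M x‖ ∂μ) l (𝓝 0)) : Tendsto (fun M => ∫ x, ‖F M x‖ ^ 2 ∂μ) l (𝓝 0) := by
  have h1 := h.const_mul K
  rw [mul_zero] at h1
  refine squeeze_zero (fun M => integral_nonneg fun x => by positivity) (fun M => ?_) h1
  have hi : Integrable (fun x => ‖F M x‖) μ := by
    refine Integrable.of_bound (C := K) (hm M).norm ?_
    filter_upwards [hb] with x hx
    rw [norm_norm]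
    exact hx M
  rw [← integral_const_mul]
  refine integral_mono_of_nonneg (ae_of_all _ fun x => by positivity) (hi.const_mul K) ?_
  filter_upwards [hb] with x hx
  rw [sq]
  exact mul_le_mul_of_nonneg_right (hx M) (norm_nonneg _)

/-- distinct degrees, in `L²`, and almost everywhere given the one-function theorem in one variable -/
theorem box_gen [IsProbabilityMeasure μ] [IsSeparable μ] (hk : 0 < k) {r : ℕ} {τ : Fin r → ℝ → X → X}
    (hτ : ∀ j, IsFlow μ (τ j))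
    {p : Fin r → Fin k → Polynomial ℝ} {e : Fin r → ℕ} (hp : ∀ j, SD (p j) (e j)) {d : ℕ} (hd : ∀ j, e j ≤ d)
    {W : (Fin k → ℕ) → X → ℂ} (hWm : ∀ n, AEStronglyMeasurable (W n) μ) (hWb : ∃ C : ℝ, ∀ n, ∀ᵐ x ∂μ, ‖W n x‖ ≤ C)
    (hinj : Function.Injective e) :
    ∃ D : Set ℝ, dimH D ≤ dm d ∧ ∀ a, a ∉ D → ∀ f : Fin r → X → ℂ,
      (∀ j, AEStronglyMeasurable (f j) μ) → (∀ j, ∃ C : ℝ, ∀ᵐ x ∂μ, ‖f j x‖ ≤ C) →
      Tendsto (fun M => ∫ x, ‖bavg M fun m => W m x *
        (∏ j, f j (τ j (a * sep (p j) m) x) - ∏ j, (μ[f j | flowInv (τ j)]) x)‖ ^ 2 ∂μ) atTop (𝓝 0) ∧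
      ((∀ j l, Pool.Agent.U587.DX.Sg μ (τ j) (p j l) a) → ∀ᵐ x ∂μ, Tendsto (fun M => bavg M fun m => W m x *
        (∏ j, f j (τ j (a * sep (p j) m) x) - ∏ j, (μ[f j | flowInv (τ j)]) x)) atTop (𝓝 0)) := by
  obtain ⟨D, hD, hDa⟩ := prod_gen hk hτ hp hd hWm hWb hinj
  refine ⟨D, hD, fun a ha f hf hfb => ?_⟩
  obtain ⟨g1, g2⟩ := hDa a ha f hf hfb
  refine ⟨?_, fun hS => g2 fun j => sg_iter (hτ j) (p j) (hS j)⟩
  choose C hC using hfb
  obtain ⟨CW, hCW⟩ := hWb
  have hcb : ∀ j, ∀ᵐ x ∂μ, ‖(μ[f j | flowInv (τ j)]) x‖ ≤ |C j| := by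
    intro j
    have h1 := ae_bdd_norm_condExp_of_ae_bdd_norm (m := flowInv (τ j)) (μ := μ) (f := f j) (R := |C j|) (by
      filter_upwards [hC j] with x hx
      exact hx.trans (le_abs_self _))
    exact h1
  have hfo : ∀ᵐ x ∂μ, ∀ (j : Fin r) (n : Fin k → ℕ), ‖f j (τ j (a * sep (p j) n) x)‖ ≤ |C j| := by
    rw [ae_all_iff]
    intro j
    rw [ae_all_iff]
    intro n
    filter_upwards [((hτ j).mp _).quasiMeasurePreserving.ae (hC j)] with x hx
    exact hx.trans (le_abs_self _)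
  have hprodb : ∀ (u : Fin r → ℂ), (∀ j, ‖u j‖ ≤ |C j|) → ‖∏ j, u j‖ ≤ ∏ j, |C j| := by
    intro u hu
    rw [norm_prod]
    exact Finset.prod_le_prod (fun j _ => norm_nonneg _) fun j _ => hu j
  have hK0 : 0 ≤ ∏ j, |C j| := prod_nonneg fun j _ => abs_nonneg _
  refine sq_of (K := |CW| * (∏ j, |C j| + ∏ j, |C j|)) (fun M => ?_) ?_ g1
  · unfold bavg
    refine AEStronglyMeasurable.const_mul ?_ _
    have h1 : (fun x => ∑ n ∈ box M, W n x *
        (∏ j, f j (τ j (a * sep (p j) n) x) - ∏ j, (μ[f j | flowInv (τ j)]) x)) =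
        ∑ n ∈ box M, fun x => W n x *
        (∏ j, f j (τ j (a * sep (p j) n) x) - ∏ j, (μ[f j | flowInv (τ j)]) x) := by
      funext x
      rw [Finset.sum_apply]
    rw [h1]
    refine Finset.aestronglyMeasurable_sum _ fun n _ => (hWm n).mul (AEStronglyMeasurable.sub ?_ ?_)
    · have h2 : (fun x => ∏ j, f j (τ j (a * sep (p j) n) x)) =
          ∏ j, fun x => f j (τ j (a * sep (p j) n) x) := by
        funext x
        rw [Finset.prod_apply]
      rw [h2]
      exact Finset.aestronglyMeasurable_prod _ fun j _ => (hf j).comp_measurePreserving ((hτ j).mp _)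
    · have h2 : (fun x => ∏ j, (μ[f j | flowInv (τ j)]) x) = ∏ j, (μ[f j | flowInv (τ j)]) := by
        funext x
        rw [Finset.prod_apply]
      rw [h2]
      exact Finset.aestronglyMeasurable_prod _ fun j _ => integrable_condExp.aestronglyMeasurable
  · filter_upwards [ae_all_iff.2 hCW, hfo, ae_all_iff.2 hcb] with x hx1 hx2 hx3 M
    refine bnorm M (mul_nonneg (abs_nonneg _) (add_nonneg hK0 hK0)) fun n => ?_
    rw [norm_mul]
    exact mul_le_mul ((hx1 n).trans (le_abs_self _)) ((norm_sub_le _ _).trans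
      (add_le_add (hprodb _ fun j => hx2 j n) (hprodb _ fun j => hx3 j))) (norm_nonneg _) (abs_nonneg _)

end Pool.Agent.U587.BX
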