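import Pool.Agent.U587.BX.Fix

set_option autoImplicit false

/-!
Boxes: one exceptional set of dimension at most `1 - 1 / (8 d)`; the factor of highest degree decouples, for all
functions.
-/

namespace Pool.Agent.U587.BX

open MeasureTheory Filter Finset
open Pool.Agent.Y957.MC (IsFlow flowInv smo smo_lip bavg box)
open Pool.Agent.R497.TD (NiceG)
open Pool.Agent.R497.TB
open Pool.Agent.R261.TB (Concl)
open Pool.Agent.R725.TB (niceWb_mul)
open Pool.Agent.R744.TB (sep_bd)
open Pool.Agent.R780.TB (norm_bavg_le bavg_add bavg_mul)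
open Pool.Agent.U587.DX (dm dm_mono ce ce_meas ce_bd ce_ae cc cc_meas cc_inv cc_bd cc_ae lip_family cob_family)
open Pool.Agent.Y312.MC (smo_meas smo_bdd smo_L1 meas_orb flowInv_le ii_orb condExp_smo inv_of_meas int_bdd)
open scoped ENNReal NNReal Topology

universe u

variable {X : Type u} [mX : MeasurableSpace X] {μ : Measure X} {k : ℕ}

lemma niceW_const {W : (Fin k → ℕ) → X → ℂ} (hWm : ∀ n, Measurable (W n)) (hW : ∀ n x, ‖W n x‖ ≤ 1) (d : ℕ) :
    NiceWb d (fun n (_ : ℝ) x => W n x) := by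
  refine ⟨fun n => (hWm n).comp measurable_snd, 1, fun n a x => hW n x, fun n _ a a' x => ?_⟩
  rw [sub_self, norm_zero]
  positivity

lemma niceW_fn {τ : ℝ → X → X} (hτ : IsFlow μ τ) {F : X → ℂ} (hF : Measurable F) (hF1 : ∀ x, ‖F x‖ ≤ 1)
    (hL : ∃ L : ℝ, ∀ u v x, ‖F (τ u x) - F (τ v x)‖ ≤ L * |u - v|) {p : Fin k → Polynomial ℝ} {d : ℕ}
    (hd : ∀ l, (p l).natDegree < d) : NiceWb d (fun m a x => F (τ (a * sep p m) x)) := by
  obtain ⟨L, hL⟩ := hL
  obtain ⟨CP, hCP0, hCP⟩ := sep_bd p d hd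
  refine ⟨fun n => hF.comp (hτ.meas.comp ((measurable_fst.mul_const _).prodMk measurable_snd)),
    max 1 (|L| * CP), fun n a x => (hF1 _).trans (le_max_left _ _), fun n hn a a' x => ?_⟩
  calc ‖F (τ (a * sep p n) x) - F (τ (a' * sep p n) x)‖
      ≤ L * |a * sep p n - a' * sep p n| := hL _ _ _
    _ ≤ |L| * |a * sep p n - a' * sep p n| :=
        mul_le_mul_of_nonneg_right (le_abs_self L) (abs_nonneg _)
    _ = |L| * |sep p n| * |a - a'| := by rw [← sub_mul, abs_mul]; ring
    _ ≤ |L| * (CP * ((Finset.univ.sup n : ℕ) : ℝ) ^ (d - 1)) * |a - a'| :=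
        mul_le_mul_of_nonneg_right (mul_le_mul_of_nonneg_left (hCP n hn) (abs_nonneg _)) (abs_nonneg _)
    _ = (|L| * CP) * ((Finset.univ.sup n : ℕ) : ℝ) ^ (d - 1) * |a - a'| := by ring
    _ ≤ max 1 (|L| * CP) * ((Finset.univ.sup n : ℕ) : ℝ) ^ (d - 1) * |a - a'| :=
        mul_le_mul_of_nonneg_right (mul_le_mul_of_nonneg_right (le_max_right _ _) (by positivity)) (abs_nonneg _)

lemma niceW_prod {r : ℕ} {τ : Fin r → ℝ → X → X} (hτ : ∀ j, IsFlow μ (τ j)) {F : Fin r → X → ℂ}
    (hF : ∀ j, Measurable (F j)) (hF1 : ∀ j x, ‖F j x‖ ≤ 1)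
    (hL : ∀ j, ∃ L : ℝ, ∀ u v x, ‖F j (τ j u x) - F j (τ j v x)‖ ≤ L * |u - v|)
    {p : Fin r → Fin k → Polynomial ℝ} {e : Fin r → ℕ} (hp : ∀ j, SD (p j) (e j)) {d : ℕ}
    {W : (Fin k → ℕ) → X → ℂ} (hWm : ∀ n, Measurable (W n)) (hW : ∀ n x, ‖W n x‖ ≤ 1) (s : Finset (Fin r))
    (hd : ∀ j ∈ s, e j < d) :
    NiceWb d (fun m a x => W m x * ∏ j ∈ s, F j (τ j (a * sep (p j) m) x)) := by
  classical
  induction s using Finset.induction_on with
  | empty =>
    simp only [prod_empty, mul_one]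
    exact niceW_const hWm hW d
  | insert i s hi ih =>
    have h5 := ih fun j hj => hd j (mem_insert_of_mem hj)
    have h6 := niceW_fn (hτ i) (hF i) (hF1 i) (hL i) (p := p i) (d := d)
      (fun l => by rw [(hp i).2 l]; exact hd i (mem_insert_self _ _))
    have h7 := niceWb_mul h5 h6
    have e : (fun (m : Fin k → ℕ) (a : ℝ) (x : X) => W m x *
        ∏ j ∈ insert i s, F j (τ j (a * sep (p j) m) x)) =
        fun (m : Fin k → ℕ) (a : ℝ) (x : X) => (W m x * ∏ j ∈ s, F j (τ j (a * sep (p j) m) x)) *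
          F i (τ i (a * sep (p i) m) x) := by
      funext n a x
      rw [prod_insert hi]
      ring
    rw [e]
    exact h7

/-- the exceptional set, normalized functions -/
theorem top_norm [IsProbabilityMeasure μ] [IsSeparable μ] (hk : 0 < k) {r : ℕ} {τ : Fin r → ℝ → X → X}
    (hτ : ∀ j, IsFlow μ (τ j))
    {p : Fin r → Fin k → Polynomial ℝ} {e : Fin r → ℕ} (hp : ∀ j, SD (p j) (e j)) {d : ℕ} (hd : ∀ j, e j ≤ d)
    {W : (Fin k → ℕ) → X → ℂ} (hWm : ∀ n, Measurable (W n)) (hW : ∀ n x, ‖W n x‖ ≤ 1) :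
    ∃ D : Set ℝ, dimH D ≤ dm d ∧ ∀ a, a ∉ D → ∀ (s : Finset (Fin r)) (t : Fin r),
      t ∉ s → (∀ j ∈ s, e j < e t) → ∀ f : Fin r → X → ℂ, (∀ j, Measurable (f j)) →
      (∀ j x, ‖f j x‖ ≤ 1 / 8) →
      Tendsto (fun M => ∫ x, ‖bavg M fun m =>
        (W m x * ∏ j ∈ s, f j (τ j (a * sep (p j) m) x)) *
          (f t (τ t (a * sep (p t) m) x) - (μ[f t | flowInv (τ t)]) x)‖ ∂μ) atTop (𝓝 0) ∧
      ((∀ j, Sg μ (τ j) (p j) a) → ∀ᵐ x ∂μ, Tendsto (fun M => bavg M fun m =>
        (W m x * ∏ j ∈ s, f j (τ j (a * sep (p j) m) x)) *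
          (f t (τ t (a * sep (p t) m) x) - (μ[f t | flowInv (τ t)]) x)) atTop (𝓝 0)) := by
  classical
  choose F hFm hF1 hFL hFd using fun j => lip_family (hτ j)
  choose G hGn hGb hGd using fun j => cob_family (hτ j)
  refine ⟨⋃ q : Finset (Fin r) × Fin r × (Fin r → ℕ) × ℕ,
    if (∀ j ∈ q.1, e j < e q.2.1) then
      {a : ℝ | ¬ Concl μ (τ q.2.1) (G q.2.1 q.2.2.2) (p q.2.1) (fun m a x => W m x *
        ∏ j ∈ q.1, F j (q.2.2.1 j) (τ j (a * sep (p j) m) x)) a} else ∅, ?_, ?_⟩
  · rw [dimH_iUnion]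
    refine iSup_le fun q => ?_
    split_ifs with h
    · refine (bad_all hk (hτ _) (hGn _ _) (hp _) ?_).trans (dm_mono (hd _) (hp _).1)
      exact niceW_prod hτ (F := fun j => F j (q.2.2.1 j)) (fun j => hFm j _) (fun j => hF1 j _) (fun j => hFL j _)
        hp hWm hW q.1 h
    · rw [dimH_empty]
      exact zero_le
  intro a haD s t hts hst f hfm hfb
  have hnice : ∀ (n : Fin r → ℕ) (q : ℕ), Concl μ (τ t) (G t q) (p t) (fun m a x => W m x *
      ∏ j ∈ s, F j (n j) (τ j (a * sep (p j) m) x)) a := by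
    intro n q
    by_contra hne
    apply haD
    rw [Set.mem_iUnion]
    refine ⟨(s, t, n, q), ?_⟩
    simp only
    rw [if_pos hst]
    exact hne
  have hre : ∀ x, |(f t x).re| ≤ 1 / 8 := fun x => (Complex.abs_re_le_norm _).trans (hfb t x)
  have him : ∀ x, |(f t x).im| ≤ 1 / 8 := fun x => (Complex.abs_im_le_norm _).trans (hfb t x)
  have hrem : Measurable fun x => (f t x).re := Complex.measurable_re.comp (hfm t)
  have himm : Measurable fun x => (f t x).im := Complex.measurable_im.comp (hfm t)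
  have hpos : ∀ i : ℕ, 0 < 1 / ((i : ℝ) + 1) := fun i => by positivity
  choose n hn using fun (i : ℕ) (j : Fin r) => hFd j (f j) (hfm j) (fun x => (hfb j x).trans (by norm_num))
    (1 / ((i : ℝ) + 1)) (hpos i)
  choose P hP using fun (i : ℕ) => hGd t (fun x => (f t x).re) hrem hre (1 / ((i : ℝ) + 1)) (hpos i)
  choose q hq using fun (i : ℕ) => hGd t (fun x => (f t x).im) himm him (1 / ((i : ℝ) + 1)) (hpos i)
  obtain ⟨φ, hφ⟩ : ∃ φ : X → ℂ, ∀ x, φ x = f t x - cc μ (τ t) (f t) x := ⟨_, fun x => rfl⟩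
  have hφm : Measurable φ := by
    have : φ = fun x => f t x - cc μ (τ t) (f t) x := funext hφ
    rw [this]
    exact (hfm t).sub (cc_meas _ _)
  have hφb : ∀ x, ‖φ x‖ ≤ 1 := fun x => by
    rw [hφ]
    refine (norm_sub_le _ _).trans ?_
    have := hfb t x
    have := cc_bd (μ := μ) (τ t) (f t) x
    linarith
  obtain ⟨Gc, hGc⟩ : ∃ Gc : ℕ → X → ℂ, ∀ i x, Gc i x = ((G t (P i) x : ℝ) : ℂ) + ((G t (q i) x : ℝ) : ℂ) * Complex.I :=
    ⟨_, fun i x => rfl⟩
  have hGcm : ∀ i, Measurable (Gc i) := fun i => by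
    have : Gc i = fun x => ((G t (P i) x : ℝ) : ℂ) + ((G t (q i) x : ℝ) : ℂ) * Complex.I := funext (hGc i)
    rw [this]
    exact (Complex.measurable_ofReal.comp (hGn _ _).1).add ((Complex.measurable_ofReal.comp (hGn _ _).1).mul_const _)
  have hGcb : ∀ i x, ‖Gc i x‖ ≤ 1 := fun i x => by
    rw [hGc]
    refine (norm_add_le _ _).trans ?_
    rw [norm_mul, Complex.norm_I, mul_one, Complex.norm_real, Complex.norm_real, Real.norm_eq_abs, Real.norm_eq_abs]
    have h1 := hGb t (P i) x
    have h2 := hGb t (q i) x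
    linarith
  have hm := flowInv_le (mX := mX) (τ t)
  have hφlim : Tendsto (fun i => ∫ x, ‖φ x - Gc i x‖ ∂μ) atTop (𝓝 0) := by
    have hlim2 : Tendsto (fun i : ℕ => 1 / ((i : ℝ) + 1) + 1 / ((i : ℝ) + 1)) atTop (𝓝 0) := by
      have := (tendsto_one_div_add_atTop_nhds_zero_nat (𝕜 := ℝ)).add (tendsto_one_div_add_atTop_nhds_zero_nat (𝕜 := ℝ))
      simpa using this
    refine squeeze_zero (fun i => integral_nonneg fun x => norm_nonneg _) (fun i => ?_) hlim2
    have i1 : Integrable (fun x => |(f t x).re - ce μ (τ t) (fun x => (f t x).re) x - G t (P i) x|) μ := by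
      refine int_bdd ((hrem.sub ((ce_meas (τ t) _).mono hm le_rfl)).sub (hGn _ _).1).abs (C := 1) fun x => ?_
      rw [abs_abs]
      have h1 := abs_sub ((f t x).re - ce μ (τ t) (fun x => (f t x).re) x) (G t (P i) x)
      have h2 := abs_sub (f t x).re (ce μ (τ t) (fun x => (f t x).re) x)
      have h3 := hGb t (P i) x
      have h4 := ce_bd (μ := μ) (τ t) (fun x => (f t x).re) x
      have h5 := hre x
      linarith
    have i2 : Integrable (fun x => |(f t x).im - ce μ (τ t) (fun x => (f t x).im) x - G t (q i) x|) μ := by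
      refine int_bdd ((himm.sub ((ce_meas (τ t) _).mono hm le_rfl)).sub (hGn _ _).1).abs (C := 1) fun x => ?_
      rw [abs_abs]
      have h1 := abs_sub ((f t x).im - ce μ (τ t) (fun x => (f t x).im) x) (G t (q i) x)
      have h2 := abs_sub (f t x).im (ce μ (τ t) (fun x => (f t x).im) x)
      have h3 := hGb t (q i) x
      have h4 := ce_bd (μ := μ) (τ t) (fun x => (f t x).im) x
      have h5 := him x
      linarith
    have h1 : ∫ x, ‖φ x - Gc i x‖ ∂μ ≤ ∫ x, (|(f t x).re - ce μ (τ t) (fun x => (f t x).re) x - G t (P i) x| +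
        |(f t x).im - ce μ (τ t) (fun x => (f t x).im) x - G t (q i) x|) ∂μ := by
      refine integral_mono_of_nonneg (ae_of_all _ fun x => norm_nonneg _) (i1.add i2) (ae_of_all _ fun x => ?_)
      simp only
      refine (Complex.norm_le_abs_re_add_abs_im _).trans (le_of_eq ?_)
      rw [hφ, hGc]
      unfold cc
      simp
    refine h1.trans ?_
    rw [integral_add i1 i2]
    exact add_le_add (hP i).le (hq i).le
  have q1 : ∀ j, Measurable (Function.update f t φ j) := fun j => by
    rcases eq_or_ne j t with rfl | h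
    · rw [Function.update_self]; exact hφm
    · rw [Function.update_of_ne h]; exact hfm j
  have q2 : ∀ j x, ‖Function.update f t φ j x‖ ≤ 1 := fun j x => by
    rcases eq_or_ne j t with rfl | h
    · rw [Function.update_self]; exact hφb x
    · rw [Function.update_of_ne h]; exact (hfb j x).trans (by norm_num)
  have q3 : ∀ i j, Measurable (Function.update (fun j => F j (n i j)) t (Gc i) j) := fun i j => by
    rcases eq_or_ne j t with rfl | h
    · rw [Function.update_self]; exact hGcm i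
    · rw [Function.update_of_ne h]; exact hFm j _
  have q4 : ∀ i j x, ‖Function.update (fun j => F j (n i j)) t (Gc i) j x‖ ≤ 1 := fun i j x => by
    rcases eq_or_ne j t with rfl | h
    · rw [Function.update_self]; exact hGcb i x
    · rw [Function.update_of_ne h]; exact hF1 j _ x
  have q5 : ∀ j, Tendsto (fun i => ∫ x, ‖Function.update f t φ j x -
      Function.update (fun j => F j (n i j)) t (Gc i) j x‖ ∂μ) atTop (𝓝 0) := fun j => by
    rcases eq_or_ne j t with rfl | h
    · simp only [Function.update_self]; exact hφlim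
    · simp only [Function.update_of_ne h]
      exact squeeze_zero (fun i => integral_nonneg fun x => norm_nonneg _) (fun i => (hn i j).le)
        (tendsto_one_div_add_atTop_nhds_zero_nat (𝕜 := ℝ))
  have q6 : ∀ i, ∀ᵐ x ∂μ, Tendsto (fun M => bavg M fun m => W m x *
      ∏ j ∈ insert t s, Function.update (fun j => F j (n i j)) t (Gc i) j (τ j (a * sep (p j) m) x))
      atTop (𝓝 0) := fun i => by
    have h1 := hnice (n i) (P i)
    have h2 := hnice (n i) (q i)
    unfold Concl at h1 h2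
    filter_upwards [h1, h2] with x hx1 hx2
    have h3 := hx1.add (hx2.const_mul Complex.I)
    rw [mul_zero, add_zero] at h3
    refine h3.congr fun M => ?_
    rw [← bavg_mul, ← bavg_add]
    congr 1
    funext m
    rw [prod_insert hts, Function.update_self, hGc]
    have e1 : ∏ j ∈ s, Function.update (fun j => F j (n i j)) t (Gc i) j (τ j (a * sep (p j) m) x) =
        ∏ j ∈ s, F j (n i j) (τ j (a * sep (p j) m) x) := by
      refine prod_congr rfl fun j hj => ?_
      have hne : j ≠ t := by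
        rintro rfl
        exact hts hj
      rw [Function.update_of_ne hne]
    rw [e1]
    ring
  have hid : ∀ᵐ x ∂μ, ∀ M : Fin k → ℕ, (bavg M fun m => W m x *
      ∏ j ∈ insert t s, Function.update f t φ j (τ j (a * sep (p j) m) x)) =
      bavg M fun m => (W m x * ∏ j ∈ s, f j (τ j (a * sep (p j) m) x)) *
          (f t (τ t (a * sep (p t) m) x) - (μ[f t | flowInv (τ t)]) x) := by
    filter_upwards [cc_ae (μ := μ) (τ := τ t) (hfm t) (hfb t)] with x hcx M
    congr 1
    funext m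
    rw [prod_insert hts, Function.update_self, hφ, cc_inv, hcx]
    have e1 : ∏ j ∈ s, Function.update f t φ j (τ j (a * sep (p j) m) x) =
        ∏ j ∈ s, f j (τ j (a * sep (p j) m) x) := by
      refine prod_congr rfl fun j hj => ?_
      have hne : j ≠ t := by
        rintro rfl
        exact hts hj
      rw [Function.update_of_ne hne]
    rw [e1]
    ring
  refine ⟨?_, fun hS => ?_⟩
  · have key := transfer_L hτ (insert t s) hWm hW q1 q2 q3 q4 q5 q6
    refine key.congr fun M => ?_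
    refine integral_congr_ae ?_
    filter_upwards [hid] with x hx
    rw [hx M]
  · have key := transfer_at hτ hS (insert t s) hW q1 q2 q3 q4 q5 q6
    filter_upwards [key, hid] with x hx hx2
    exact hx.congr fun M => hx2 M

end Pool.Agent.U587.BX
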